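import Pool.Agent.Lib.MP_53850c_co.BW.Side
import Pool.Agent.Lib.MP_53850c_co.LF.Formula
import Pool.Agent.Lib.MP_53850c_co.LF.Main0

/-!
# Sums of local functions (polynomials of bounded degree): definitions and specifications
-/

set_option autoImplicit false

namespace Pool.Agent.Lib.MP_53850c_co.PD

open Finset Pool.Agent.Lib.MP_53850c_co.BW Pool.Agent.Lib.MP_53850c_co.LF

/-- `Q` is a sum of functions which depend on at most `D` letters each. -/
def Loc {n : ℕ} {A : Type} [AddCommMonoid A] (D : ℕ) (Q : (Fin n → Option Bool) → A) : Prop :=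
  ∃ φ : Finset (Fin n) → (Fin n → Option Bool) → A,
    (∀ K u v, (∀ i ∈ K, u i = v i) → φ K u = φ K v) ∧
    ∀ u, Q u = ∑ K ∈ univ.filter (fun K : Finset (Fin n) => K.card ≤ D), φ K u

open Classical in
/-- the strictly increasing tuples -/
noncomputable def SM (r n : ℕ) : Finset (Fin r → Fin n) := univ.filter StrictMono

/-- HYPERGRAPH RAMSEY for strictly increasing tuples (helper61). -/
def SpecHyp : Prop := ∀ (κ : Type) [Finite κ] (r m : ℕ), ∃ N : ℕ, ∀ (α : Type) [LinearOrder α]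
  (c : (Fin r → α) → κ) (S : Finset α), N ≤ S.card → ∃ (T : Finset α) (k₀ : κ), T ⊆ S ∧
    T.card = m ∧ ∀ t : Fin r → α, StrictMono t → (∀ i, t i ∈ T) → c t = k₀

/-- HOMOGENEOUS SUMS are read by formulas with one leaf for each letter, over an alphabet `M` which
depends only on `r` and `A` (helper85). -/
def SpecHom : Prop := ∀ (A : Type) [AddCommMonoid A] [Finite A] (r : ℕ),
  ∃ (M : Type) (_ : Finite M), ∀ n : ℕ, 1 ≤ n → ∀ c : (Fin r → Option Bool) → A,
    ∃ (Φ : Fm n M) (out : M → A), (∀ j, Φ.occ j ≤ 1) ∧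
      ∀ u, ∑ k ∈ SM r n, c (u ∘ k) = out (Φ.eval u)

open Classical in
/-- edges, formula + sum of `D`-local functions; `BoundE A 0` is the formula theorem (helper39),
`BoundE A D → BoundE A (D + 1)` helper5 -/
def BoundE (A : Type) [AddCommMonoid A] (D : ℕ) : Prop :=
  ∀ (S : Type) [Finite S] (k d : ℕ) (ε : ℝ), 1 ≤ d → 0 < ε → ∃ N : ℕ, ∀ n, N ≤ n →
    ∀ (Φ : Fm n S) (Q : (Fin n → Option Bool) → A) (Ψ : S → A → Prop), (∀ j, Φ.occ j ≤ k) →
      Loc D Q →
      (∀ s : Fin n → Option Bool, dim s = d → ∃ u, dim u = 1 ∧ Sub u s ∧ Ψ (Φ.eval u) (Q u)) →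
      (1 / (B d : ℝ) - ε) * ((n : ℝ) * 2 ^ (n - 1)) ≤
        ((univ.filter fun u : Fin n → Option Bool => dim u = 1 ∧ Ψ (Φ.eval u) (Q u)).card : ℝ)

open Classical in
/-- vertices -/
def BoundV (A : Type) [AddCommMonoid A] (D : ℕ) : Prop :=
  ∀ (S : Type) [Finite S] (k d : ℕ) (ε : ℝ), 1 ≤ d → 0 < ε → ∃ N : ℕ, ∀ n, N ≤ n →
    ∀ (Φ : Fm n S) (Q : (Fin n → Option Bool) → A) (Ψ : S → A → Prop), (∀ j, Φ.occ j ≤ k) →
      Loc D Q →
      (∀ s : Fin n → Option Bool, dim s = d → ∃ u, dim u = 0 ∧ Sub u s ∧ Ψ (Φ.eval u) (Q u)) →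
      (1 / ((d : ℝ) + 1) - ε) * 2 ^ n ≤
        ((univ.filter fun u : Fin n → Option Bool => dim u = 0 ∧ Ψ (Φ.eval u) (Q u)).card : ℝ)

/-- POLYNOMIALS: the value of a polynomial of degree `≤ D` in the indicator variables is a sum of
`D`-local functions; several polynomials at once (helper83 or helper26). -/
def SpecPoly : Prop := ∀ (R : Type) [CommRing R] (n K D : ℕ)
  (P : Fin K → MvPolynomial (Fin n × Option Bool) R), (∀ i, (P i).totalDegree ≤ D) →
    Loc (A := Fin K → R) D (fun u i => MvPolynomial.eval (fun x => if u x.1 = x.2 then 1 else 0) (P i))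

end Pool.Agent.Lib.MP_53850c_co.PD
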