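import Pool.Agent.Lib.MP_53850c_co.PD.Defs

/-!
# Homogeneous sums over strictly increasing tuples are read by formulas
-/

set_option autoImplicit false

namespace Pool.Agent.Lib.MP_53850c_co.PD

open Finset Pool.Agent.Lib.MP_53850c_co.BW Pool.Agent.Lib.MP_53850c_co.LF

namespace Hom

variable {A : Type} [AddCommMonoid A]

/-- the sum of `c` over all subwords of length `r` -/
def Hf : List (Option Bool) → (r : ℕ) → ((Fin r → Option Bool) → A) → A
  | [], 0, c => c Fin.elim0
  | [], _ + 1, _ => 0
  | _ :: w, 0, c => Hf w 0 c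
  | a :: w, r + 1, c => Hf w (r + 1) c + Hf w r (fun p => c (Fin.cons a p))

lemma Hf_zero (w : List (Option Bool)) (c : (Fin 0 → Option Bool) → A) :
    Hf w 0 c = c Fin.elim0 := by
  induction w with
  | nil => rfl
  | cons a w ih => exact ih

lemma SM_zero (n : ℕ) : SM 0 n = {fun i => i.elim0} := by
  classical
  ext k
  rw [mem_singleton]
  constructor
  · intro _
    funext i
    exact i.elim0
  · intro _
    simp only [SM, mem_filter, mem_univ, true_and]
    intro i
    exact i.elim0

lemma SM_succ_zero (r : ℕ) : SM (r + 1) 0 = ∅ := by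
  classical
  ext k
  exact (k 0).elim0

lemma mem_SM {r n : ℕ} {k : Fin r → Fin n} : k ∈ SM r n ↔ StrictMono k := by
  classical
  simp [SM]

/-- `0` followed by the successors of `k` -/
def cons0 {r n : ℕ} (k : Fin r → Fin n) : Fin (r + 1) → Fin (n + 1) :=
  Fin.cons 0 (fun i => (k i).succ)

lemma cons0_zero {r n : ℕ} (k : Fin r → Fin n) : cons0 k 0 = 0 := rfl

lemma cons0_succ {r n : ℕ} (k : Fin r → Fin n) (i : Fin r) : cons0 k i.succ = (k i).succ := rfl

lemma strictMono_cons0 {r n : ℕ} {k : Fin r → Fin n} (hk : StrictMono k) :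
    StrictMono (cons0 k) := by
  intro i j hij
  induction i using Fin.cases with
  | zero =>
    induction j using Fin.cases with
    | zero => exact absurd hij (lt_irrefl _)
    | succ j => rw [cons0_zero, cons0_succ]; exact Fin.succ_pos _
  | succ i =>
    induction j using Fin.cases with
    | zero => exact absurd hij (by simp)
    | succ j =>
      rw [cons0_succ, cons0_succ]
      exact Fin.succ_lt_succ_iff.mpr (hk (Fin.succ_lt_succ_iff.mp hij))

lemma sum_SM_succ {r n : ℕ} (F : (Fin (r + 1) → Fin (n + 1)) → A) :
    ∑ k ∈ SM (r + 1) (n + 1), F k =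
      ∑ k ∈ SM (r + 1) n, F (fun i => (k i).succ) + ∑ k ∈ SM r n, F (cons0 k) := by
  classical
  rw [← sum_filter_add_sum_filter_not (SM (r + 1) (n + 1)) (fun k => k 0 ≠ 0)]
  congr 1
  · symm
    refine sum_bij (fun k _ i => (k i).succ) ?_ ?_ ?_ ?_
    · intro k hk
      rw [mem_filter, mem_SM]
      rw [mem_SM] at hk
      exact ⟨fun i j hij => Fin.succ_lt_succ_iff.mpr (hk hij), Fin.succ_ne_zero _⟩
    · intro k _ k' _ h
      funext i
      exact Fin.succ_injective _ (congrFun h i)
    · intro k hk
      rw [mem_filter, mem_SM] at hk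
      obtain ⟨hm, h0⟩ := hk
      have hne : ∀ i, k i ≠ 0 := by
        intro i hi
        have h1 : k 0 ≤ k i := hm.monotone (Fin.zero_le i)
        rw [hi] at h1
        exact h0 (Fin.le_zero_iff.mp h1)
      refine ⟨fun i => (k i).pred (hne i), ?_, ?_⟩
      · rw [mem_SM]
        intro i j hij
        exact Fin.pred_lt_pred_iff.mpr (hm hij)
      · funext i
        exact Fin.succ_pred _ _
    · intro k _
      rfl
  · symm
    refine sum_bij (fun k _ => cons0 k) ?_ ?_ ?_ ?_
    · intro k hk
      rw [mem_filter, mem_SM]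
      rw [mem_SM] at hk
      exact ⟨strictMono_cons0 hk, by simp [cons0_zero]⟩
    · intro k _ k' _ h
      funext i
      have := congrFun h i.succ
      rw [cons0_succ, cons0_succ] at this
      exact Fin.succ_injective _ this
    · intro k hk
      rw [mem_filter, mem_SM, not_not] at hk
      obtain ⟨hm, h0⟩ := hk
      have hne : ∀ i : Fin r, k i.succ ≠ 0 := by
        intro i hi
        have h1 : k 0 < k i.succ := hm (Fin.succ_pos i)
        rw [h0, hi] at h1
        exact absurd h1 (lt_irrefl _)
      refine ⟨fun i => (k i.succ).pred (hne i), ?_, ?_⟩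
      · rw [mem_SM]
        intro i j hij
        exact Fin.pred_lt_pred_iff.mpr (hm (Fin.succ_lt_succ_iff.mpr hij))
      · funext i
        induction i using Fin.cases with
        | zero => rw [cons0_zero, h0]
        | succ i => rw [cons0_succ]; exact Fin.succ_pred _ _
    · intro k _
      rfl

lemma sum_eq_Hf : ∀ (n r : ℕ) (c : (Fin r → Option Bool) → A) (u : Fin n → Option Bool),
    ∑ k ∈ SM r n, c (u ∘ k) = Hf (List.ofFn u) r c := by
  intro n
  induction n with
  | zero =>
    intro r c u
    cases r with
    | zero =>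
      rw [SM_zero, sum_singleton, Hf_zero]
      congr 1
      funext i
      exact i.elim0
    | succ r =>
      rw [SM_succ_zero, sum_empty]
      rfl
  | succ n ih =>
    intro r c u
    cases r with
    | zero =>
      rw [SM_zero, sum_singleton, Hf_zero]
      congr 1
      funext i
      exact i.elim0
    | succ r =>
      rw [sum_SM_succ, List.ofFn_succ, Hf]
      congr 1
      · exact ih (r + 1) c (fun i => u i.succ)
      · rw [← ih r (fun p => c (Fin.cons (u 0) p)) (fun i => u i.succ)]
        refine sum_congr rfl (fun k _ => ?_)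
        congr 1
        funext i
        induction i using Fin.cases with
        | zero => rfl
        | succ i => rfl

/-- tables of all values `Hf w r' c'`, `r' ≤ r` -/
abbrev V (A : Type) (r : ℕ) : Type := (r' : Fin (r + 1)) → (((Fin r' → Option Bool) → A) → A)

/-- the table of the word `w` -/
def tab (r : ℕ) (w : List (Option Bool)) : V A r := fun r' c => Hf w r' c

/-- a letter acts on the tables -/
def T {r : ℕ} (a : Option Bool) (v : V A r) : V A r
  | ⟨0, h⟩, c => v ⟨0, h⟩ c
  | ⟨k + 1, h⟩, c => v ⟨k + 1, h⟩ c + v ⟨k, by omega⟩ (fun p => c (Fin.cons a p))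

lemma tab_cons (r : ℕ) (a : Option Bool) (w : List (Option Bool)) :
    (tab r (a :: w) : V A r) = T a (tab r w) := by
  funext r' c
  obtain ⟨k, hk⟩ := r'
  cases k with
  | zero => rfl
  | succ k => rfl

lemma tab_map {n : ℕ} (r : ℕ) (u : Fin n → Option Bool) (L : List (Fin n)) :
    (tab r (L.map u) : V A r) = L.foldr (fun i v => T (u i) v) (tab r []) := by
  induction L with
  | nil => rfl
  | cons i L ih => rw [List.map_cons, tab_cons, ih, List.foldr_cons]

/-- the formula which reads the letters of the list `i :: L` -/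
def form {n r : ℕ} : Fin n → List (Fin n) → Fm n (V A r → V A r)
  | i, [] => Fm.leaf i T
  | i, j :: L => Fm.gate (fun f g => f ∘ g) (Fm.leaf i T) (form j L)

lemma form_eval {n r : ℕ} (u : Fin n → Option Bool) : ∀ (L : List (Fin n)) (i : Fin n) (v : V A r),
    (form i L : Fm n (V A r → V A r)).eval u v = (i :: L).foldr (fun i v => T (u i) v) v := by
  intro L
  induction L with
  | nil => intro i v; rfl
  | cons j L ih =>
    intro i v
    rw [form, Fm.eval, List.foldr_cons, ← ih j v]
    rfl

lemma form_occ {n r : ℕ} (k : Fin n) : ∀ (L : List (Fin n)) (i : Fin n),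
    (form i L : Fm n (V A r → V A r)).occ k = (i :: L).count k := by
  intro L
  induction L with
  | nil =>
    intro i
    rw [form, Fm.occ, List.count_cons, List.count_nil]
    by_cases h : i = k <;> simp [h]
  | cons j L ih =>
    intro i
    rw [form, Fm.occ, ih j, Fm.occ, List.count_cons (l := j :: L)]
    by_cases h : i = k
    · simp [h, add_comm]
    · simp [h]

end Hom

open Hom in
theorem specHom : SpecHom := by
  intro A _ _ r
  refine ⟨V A r → V A r, inferInstance, fun n hn c => ?_⟩
  obtain ⟨n, rfl⟩ : ∃ m, n = m + 1 := ⟨n - 1, by omega⟩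
  obtain ⟨i, L, hL⟩ : ∃ i L, List.finRange (n + 1) = i :: L := by
    rw [List.finRange_succ]
    exact ⟨_, _, rfl⟩
  refine ⟨form i L, fun m => m (tab r []) ⟨r, Nat.lt_succ_self r⟩ c, fun j => ?_, fun u => ?_⟩
  · rw [form_occ, ← hL]
    exact List.nodup_iff_count_le_one.mp (List.nodup_finRange _) j
  · simp only
    rw [form_eval, ← hL, ← tab_map, sum_eq_Hf]
    have : List.map u (List.finRange (n + 1)) = List.ofFn u := (List.ofFn_eq_map).symm
    rw [this]
    rfl

end Pool.Agent.Lib.MP_53850c_co.PD
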