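import Pool.Agent.Lib.MP_53850c_co.PD.LowTools

section
/-!
# Covering sets which are close to a rule: from the robust theorems
-/
set_option autoImplicit false

namespace Pool.Agent.Lib.MP_53850c_co.PD

open Finset Pool.Agent.Lib.MP_53850c_co.BW Pool.Agent.Lib.MP_53850c_co.LF

section count

variable {n : ℕ}

/-- the star positions -/
def stars (s : Fin n → Option Bool) : Finset (Fin n) := univ.filter fun i => s i = none

lemma mem_stars {s : Fin n → Option Bool} {i : Fin n} : i ∈ stars s ↔ s i = none := by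
  simp [stars]

lemma stars_subset {u s : Fin n → Option Bool} (h : Sub u s) : stars u ⊆ stars s := by
  intro i hi
  rw [mem_stars] at hi ⊢
  by_contra hs
  exact hs (by rw [← h i hs, hi])

open Classical in
/-- at most `n ^ (d - l)` faces of dimension `d` contain a given face of dimension `l` -/
lemma card_faces (u : Fin n → Option Bool) {l d : ℕ} (hu : dim u = l) :
    (univ.filter fun s : Fin n → Option Bool => dim s = d ∧ Sub u s).card ≤ n ^ (d - l) := by
  have h1 : (univ.filter fun s : Fin n → Option Bool => dim s = d ∧ Sub u s).card ≤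
      (powersetCard (d - l) (univ : Finset (Fin n))).card := by
    refine card_le_card_of_injOn (fun s => stars s \ stars u) ?_ ?_
    · intro s hs
      rw [mem_coe, mem_filter] at hs
      rw [mem_coe, mem_powersetCard]
      refine ⟨subset_univ _, ?_⟩
      rw [card_sdiff_of_subset (stars_subset hs.2.2)]
      have h2 : (stars s).card = d := hs.2.1
      have h3 : (stars u).card = l := hu
      rw [h2, h3]
    · intro s hs s' hs' hss
      rw [mem_coe, mem_filter] at hs hs'
      have h2 : stars s = stars s' := by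
        have h3 : (stars s \ stars u) ∪ stars u = (stars s' \ stars u) ∪ stars u := by
          have h4 : stars s \ stars u = stars s' \ stars u := hss
          rw [h4]
        rwa [sdiff_union_of_subset (stars_subset hs.2.2),
          sdiff_union_of_subset (stars_subset hs'.2.2)] at h3
      funext i
      by_cases hi : i ∈ stars s
      · have hi' := hi
        rw [h2] at hi'
        rw [mem_stars.mp hi, mem_stars.mp hi']
      · have hi' := hi
        rw [h2] at hi'
        rw [mem_stars] at hi hi'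
        rw [← hs.2.2 i hi, ← hs'.2.2 i hi']
  refine h1.trans ?_
  rw [card_powersetCard, card_univ, Fintype.card_fin]
  exact Nat.choose_le_pow n (d - l)

open Classical in
/-- If `E'` meets all `d`-faces, few `d`-faces contain no member of a set `E` close to `E'`. -/
lemma card_uncovered (E E' : (Fin n → Option Bool) → Prop) {l d : ℕ}
    (hcov : ∀ s : Fin n → Option Bool, dim s = d → ∃ u, dim u = l ∧ Sub u s ∧ E' u) :
    (univ.filter fun s : Fin n → Option Bool =>
      dim s = d ∧ ¬ ∃ u, dim u = l ∧ Sub u s ∧ E u).card ≤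
    (univ.filter fun u : Fin n → Option Bool => dim u = l ∧ ¬ (E' u ↔ E u)).card * n ^ (d - l) := by
  have h1 : (univ.filter fun s : Fin n → Option Bool =>
      dim s = d ∧ ¬ ∃ u, dim u = l ∧ Sub u s ∧ E u) ⊆
      (univ.filter fun u : Fin n → Option Bool => dim u = l ∧ ¬ (E' u ↔ E u)).biUnion
        (fun u => univ.filter fun s : Fin n → Option Bool => dim s = d ∧ Sub u s) := by
    intro s hs
    rw [mem_filter] at hs
    obtain ⟨u, hu1, hu2, hu3⟩ := hcov s hs.2.1
    rw [mem_biUnion]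
    refine ⟨u, mem_filter.mpr ⟨mem_univ _, hu1, fun h => ?_⟩,
      mem_filter.mpr ⟨mem_univ _, hs.2.1, hu2⟩⟩
    exact hs.2.2 ⟨u, hu1, hu2, h.mp hu3⟩
  refine (card_le_card h1).trans (card_biUnion_le.trans ?_)
  rw [← smul_eq_mul, ← sum_const]
  exact sum_le_sum fun u hu => card_faces u (mem_filter.mp hu).2.1

open Classical in
lemma card_close (E E' : (Fin n → Option Bool) → Prop) (l : ℕ) :
    (univ.filter fun u : Fin n → Option Bool => dim u = l ∧ E u).card ≤
    (univ.filter fun u : Fin n → Option Bool => dim u = l ∧ E' u).card +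
    (univ.filter fun u : Fin n → Option Bool => dim u = l ∧ ¬ (E' u ↔ E u)).card := by
  refine le_trans (card_le_card ?_) (card_union_le _ _)
  intro u hu
  rw [mem_filter] at hu
  rw [mem_union, mem_filter, mem_filter]
  by_cases h : E' u
  · exact Or.inl ⟨mem_univ _, hu.2.1, h⟩
  · exact Or.inr ⟨mem_univ _, hu.2.1, fun h' => h (h'.mpr hu.2.2)⟩

end count

open Classical in
/-- the robust theorem for edges, for given parameters -/
def RobE (S A : Type) [AddCommMonoid A] (k D d : ℕ) (ε : ℝ) : Prop :=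
  ∃ δ : ℝ, 0 < δ ∧ ∃ n₀ : ℕ, ∀ n, n₀ ≤ n → ∀ (T : Type) (Φ : Fm n S)
    (Q : (Fin n → Option Bool) → A) (F : (Fin n → Option Bool) → T) (Ψ : S → A → T → Prop),
    Φ.size ≤ k * n → Loc D Q → (sens F 1 : ℝ) ≤ δ * n * (n * 2 ^ (n - 1)) →
    ((univ.filter fun s : Fin n → Option Bool =>
      dim s = d ∧ ¬ ∃ u, dim u = 1 ∧ Sub u s ∧ Ψ (Φ.eval u) (Q u) (F u)).card : ℝ) ≤
      δ * n ^ d * 2 ^ n →
    (1 / (B d : ℝ) - ε) * ((n : ℝ) * 2 ^ (n - 1)) ≤ ((univ.filter fun u : Fin n → Option Bool =>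
      dim u = 1 ∧ Ψ (Φ.eval u) (Q u) (F u)).card : ℝ)

open Classical in
/-- the robust theorem for vertices, for given parameters -/
def RobV (S A : Type) [AddCommMonoid A] (k D d : ℕ) (ε : ℝ) : Prop :=
  ∃ δ : ℝ, 0 < δ ∧ ∃ n₀ : ℕ, ∀ n, n₀ ≤ n → ∀ (T : Type) (Φ : Fm n S)
    (Q : (Fin n → Option Bool) → A) (F : (Fin n → Option Bool) → T) (Ψ : S → A → T → Prop),
    Φ.size ≤ k * n → Loc D Q → (sens F 0 : ℝ) ≤ δ * n * 2 ^ n →
    ((univ.filter fun s : Fin n → Option Bool =>
      dim s = d ∧ ¬ ∃ u, dim u = 0 ∧ Sub u s ∧ Ψ (Φ.eval u) (Q u) (F u)).card : ℝ) ≤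
      δ * n ^ d * 2 ^ n →
    (1 / ((d : ℝ) + 1) - ε) * 2 ^ n ≤ ((univ.filter fun u : Fin n → Option Bool =>
      dim u = 0 ∧ Ψ (Φ.eval u) (Q u) (F u)).card : ℝ)

open Classical in
/-- **Edges.** Covering sets which differ in few edges from a rule. -/
theorem approx_edges_of {S A : Type} [AddCommMonoid A] {k D d : ℕ} (hd : 1 ≤ d) {ε : ℝ}
    (hε : 0 < ε) (hR : RobE S A k D d (ε / 2)) :
    ∃ δ : ℝ, 0 < δ ∧ ∃ n₀ : ℕ, ∀ n, n₀ ≤ n → ∀ (T : Type) (Φ : Fm n S)
      (Q : (Fin n → Option Bool) → A) (F : (Fin n → Option Bool) → T) (Ψ : S → A → T → Prop)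
      (E : (Fin n → Option Bool) → Prop),
      Φ.size ≤ k * n → Loc D Q → (sens F 1 : ℝ) ≤ δ * n * (n * 2 ^ (n - 1)) →
      ((univ.filter fun u : Fin n → Option Bool =>
        dim u = 1 ∧ ¬ (E u ↔ Ψ (Φ.eval u) (Q u) (F u))).card : ℝ) ≤ δ * (n * 2 ^ (n - 1)) →
      (∀ s : Fin n → Option Bool, dim s = d → ∃ u, dim u = 1 ∧ Sub u s ∧ E u) →
      (1 / (B d : ℝ) - ε) * ((n : ℝ) * 2 ^ (n - 1)) ≤ ((univ.filter fun u : Fin n → Option Bool =>
        dim u = 1 ∧ E u).card : ℝ) := by
  obtain ⟨δ, hδ, n₀, hn₀⟩ := hR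
  refine ⟨min δ (ε / 2), lt_min hδ (by positivity), n₀, fun n hn T Φ Q F Ψ E hsize hQ hsens hdiff
    hcov => ?_⟩
  set δ' := min δ (ε / 2) with hδ'
  have h1 : δ' ≤ δ := min_le_left _ _
  have h2 : δ' ≤ ε / 2 := min_le_right _ _
  have hn0 : (0 : ℝ) ≤ n := Nat.cast_nonneg _
  have hP : (0 : ℝ) < 2 ^ (n - 1) := by positivity
  have hPn : (2 : ℝ) ^ (n - 1) ≤ 2 ^ n := pow_le_pow_right₀ (by norm_num) (Nat.sub_le _ _)
  have h3 := card_uncovered (fun u => Ψ (Φ.eval u) (Q u) (F u)) E hcov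
  have h4 : ((univ.filter fun s : Fin n → Option Bool =>
      dim s = d ∧ ¬ ∃ u, dim u = 1 ∧ Sub u s ∧ Ψ (Φ.eval u) (Q u) (F u)).card : ℝ) ≤
      ((univ.filter fun u : Fin n → Option Bool =>
        dim u = 1 ∧ ¬ (E u ↔ Ψ (Φ.eval u) (Q u) (F u))).card : ℝ) * n ^ (d - 1) := by
    exact_mod_cast h3
  have h5 : ((univ.filter fun s : Fin n → Option Bool =>
      dim s = d ∧ ¬ ∃ u, dim u = 1 ∧ Sub u s ∧ Ψ (Φ.eval u) (Q u) (F u)).card : ℝ) ≤
      δ * n ^ d * 2 ^ n := by
    refine h4.trans ?_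
    calc ((univ.filter fun u : Fin n → Option Bool =>
        dim u = 1 ∧ ¬ (E u ↔ Ψ (Φ.eval u) (Q u) (F u))).card : ℝ) * n ^ (d - 1)
        ≤ δ' * (n * 2 ^ (n - 1)) * n ^ (d - 1) := mul_le_mul_of_nonneg_right hdiff (by positivity)
      _ = δ' * (n * n ^ (d - 1)) * 2 ^ (n - 1) := by ring
      _ = δ' * n ^ d * 2 ^ (n - 1) := by
        rw [← pow_succ']
        congr 3
        omega
      _ ≤ δ * n ^ d * 2 ^ n := by gcongr
  have h6 := hn₀ n hn T Φ Q F Ψ hsize hQ (hsens.trans (by gcongr)) h5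
  have h7 := card_close (fun u => Ψ (Φ.eval u) (Q u) (F u)) E 1
  have h8 : ((univ.filter fun u : Fin n → Option Bool =>
      dim u = 1 ∧ Ψ (Φ.eval u) (Q u) (F u)).card : ℝ) ≤
      ((univ.filter fun u : Fin n → Option Bool => dim u = 1 ∧ E u).card : ℝ) +
      ((univ.filter fun u : Fin n → Option Bool =>
        dim u = 1 ∧ ¬ (E u ↔ Ψ (Φ.eval u) (Q u) (F u))).card : ℝ) := by
    exact_mod_cast h7
  have h9 : δ' * (n * 2 ^ (n - 1)) ≤ ε / 2 * (n * 2 ^ (n - 1)) := by gcongr
  have h10 : (1 / (B d : ℝ) - ε) * ((n : ℝ) * 2 ^ (n - 1)) =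
      (1 / (B d : ℝ) - ε / 2) * ((n : ℝ) * 2 ^ (n - 1)) - ε / 2 * (n * 2 ^ (n - 1)) := by ring
  rw [h10]
  linarith

open Classical in
/-- **Vertices.** Covering sets which differ in few vertices from a rule. -/
theorem approx_vertices_of {S A : Type} [AddCommMonoid A] {k D d : ℕ} {ε : ℝ}
    (hε : 0 < ε) (hR : RobV S A k D d (ε / 2)) :
    ∃ δ : ℝ, 0 < δ ∧ ∃ n₀ : ℕ, ∀ n, n₀ ≤ n → ∀ (T : Type) (Φ : Fm n S)
      (Q : (Fin n → Option Bool) → A) (F : (Fin n → Option Bool) → T) (Ψ : S → A → T → Prop)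
      (E : (Fin n → Option Bool) → Prop),
      Φ.size ≤ k * n → Loc D Q → (sens F 0 : ℝ) ≤ δ * n * 2 ^ n →
      ((univ.filter fun u : Fin n → Option Bool =>
        dim u = 0 ∧ ¬ (E u ↔ Ψ (Φ.eval u) (Q u) (F u))).card : ℝ) ≤ δ * 2 ^ n →
      (∀ s : Fin n → Option Bool, dim s = d → ∃ u, dim u = 0 ∧ Sub u s ∧ E u) →
      (1 / ((d : ℝ) + 1) - ε) * 2 ^ n ≤ ((univ.filter fun u : Fin n → Option Bool =>
        dim u = 0 ∧ E u).card : ℝ) := by
  obtain ⟨δ, hδ, n₀, hn₀⟩ := hR
  refine ⟨min δ (ε / 2), lt_min hδ (by positivity), n₀, fun n hn T Φ Q F Ψ E hsize hQ hsens hdiff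
    hcov => ?_⟩
  set δ' := min δ (ε / 2) with hδ'
  have h1 : δ' ≤ δ := min_le_left _ _
  have h2 : δ' ≤ ε / 2 := min_le_right _ _
  have hP : (0 : ℝ) < 2 ^ n := by positivity
  have h3 := card_uncovered (fun u => Ψ (Φ.eval u) (Q u) (F u)) E hcov
  have h4 : ((univ.filter fun s : Fin n → Option Bool =>
      dim s = d ∧ ¬ ∃ u, dim u = 0 ∧ Sub u s ∧ Ψ (Φ.eval u) (Q u) (F u)).card : ℝ) ≤
      ((univ.filter fun u : Fin n → Option Bool =>
        dim u = 0 ∧ ¬ (E u ↔ Ψ (Φ.eval u) (Q u) (F u))).card : ℝ) * n ^ d := by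
    exact_mod_cast h3
  have h5 : ((univ.filter fun s : Fin n → Option Bool =>
      dim s = d ∧ ¬ ∃ u, dim u = 0 ∧ Sub u s ∧ Ψ (Φ.eval u) (Q u) (F u)).card : ℝ) ≤
      δ * n ^ d * 2 ^ n := by
    refine h4.trans ?_
    calc ((univ.filter fun u : Fin n → Option Bool =>
        dim u = 0 ∧ ¬ (E u ↔ Ψ (Φ.eval u) (Q u) (F u))).card : ℝ) * n ^ d
        ≤ δ' * 2 ^ n * n ^ d := mul_le_mul_of_nonneg_right hdiff (by positivity)
      _ = δ' * n ^ d * 2 ^ n := by ring
      _ ≤ δ * n ^ d * 2 ^ n := by gcongr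
  have h6 := hn₀ n hn T Φ Q F Ψ hsize hQ (hsens.trans (by gcongr)) h5
  have h7 := card_close (fun u => Ψ (Φ.eval u) (Q u) (F u)) E 0
  have h8 : ((univ.filter fun u : Fin n → Option Bool =>
      dim u = 0 ∧ Ψ (Φ.eval u) (Q u) (F u)).card : ℝ) ≤
      ((univ.filter fun u : Fin n → Option Bool => dim u = 0 ∧ E u).card : ℝ) +
      ((univ.filter fun u : Fin n → Option Bool =>
        dim u = 0 ∧ ¬ (E u ↔ Ψ (Φ.eval u) (Q u) (F u))).card : ℝ) := by
    exact_mod_cast h7
  have h9 : δ' * 2 ^ n ≤ ε / 2 * 2 ^ n := by gcongr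
  have h10 : (1 / ((d : ℝ) + 1) - ε) * 2 ^ n =
      (1 / ((d : ℝ) + 1) - ε / 2) * 2 ^ n - ε / 2 * 2 ^ n := by ring
  rw [h10]
  linarith

end Pool.Agent.Lib.MP_53850c_co.PD
end

section
/-!
# Side information of low sensitivity: edges
-/
set_option autoImplicit false

namespace Pool.Agent.Lib.MP_53850c_co.PD

open Finset Pool.Agent.Lib.MP_53850c_co.BW Pool.Agent.Lib.MP_53850c_co.LF

/-! ### the direction of an edge is read by a formula -/

section star

variable {h : ℕ} {T : Type}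

/-- the formula which finds the star -/
def starForm (φ : Fin h → T) : Fin h → List (Fin h) → Fm h (Option T)
  | i, [] => Fm.leaf i (fun o => if o = none then some (φ i) else none)
  | i, j :: L => Fm.gate (fun p q => p.orElse fun _ => q)
      (Fm.leaf i (fun o => if o = none then some (φ i) else none)) (starForm φ j L)

lemma starForm_eval (φ : Fin h → T) {v : Fin h → Option Bool} {a : Fin h}
    (hv : ∀ j, v j = none ↔ j = a) : ∀ (L : List (Fin h)) (i : Fin h),
    (starForm φ i L).eval v = if a ∈ i :: L then some (φ a) else none := by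
  intro L
  induction L with
  | nil =>
    intro i
    simp only [starForm, Fm.eval, List.mem_singleton]
    by_cases h : i = a
    · subst h
      simp [hv]
    · have h' : ¬ a = i := fun h' => h h'.symm
      simp [hv, h, h']
  | cons j L ih =>
    intro i
    simp only [starForm, Fm.eval]
    rw [ih j]
    by_cases h : i = a
    · subst h
      simp [hv]
    · have h' : ¬ a = i := fun h' => h h'.symm
      simp only [hv, h, if_false, Option.orElse_none, List.mem_cons, h', false_or]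

lemma starForm_occ (φ : Fin h → T) (k : Fin h) : ∀ (L : List (Fin h)) (i : Fin h),
    (starForm φ i L).occ k = (i :: L).count k := by
  intro L
  induction L with
  | nil =>
    intro i
    rw [starForm, Fm.occ, List.count_cons, List.count_nil]
    by_cases h : i = k <;> simp [h]
  | cons j L ih =>
    intro i
    rw [starForm, Fm.occ, ih j, Fm.occ, List.count_cons (l := j :: L)]
    by_cases h : i = k
    · simp [h, add_comm]
    · simp [h]

lemma eq_none_iff {v : Fin h → Option Bool} {a : Fin h} (hv : dim v = 1) (ha : v a = none) :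
    ∀ j, v j = none ↔ j = a := by
  intro j
  have h3 : (univ.filter fun i => v i = none).card = 1 := hv
  obtain ⟨q, hq⟩ := card_eq_one.mp h3
  have h4 : a ∈ univ.filter fun i => v i = none := by simp [ha]
  rw [hq, mem_singleton] at h4
  subst h4
  constructor
  · intro hj
    have h5 : j ∈ univ.filter fun i => v i = none := by simp [hj]
    rwa [hq, mem_singleton] at h5
  · rintro rfl
    exact ha

lemma exists_dir {v : Fin h → Option Bool} (hv : dim v = 1) : ∃ a, v a = none := by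
  have h3 : (univ.filter fun i => v i = none).card = 1 := hv
  obtain ⟨q, hq⟩ := card_eq_one.mp h3
  have : q ∈ univ.filter fun i => v i = none := by rw [hq]; simp
  exact ⟨q, (mem_filter.mp this).2⟩

lemma exists_star (φ : Fin h → T) (hh : 0 < h) : ∃ Φ : Fm h (Option T), (∀ j, Φ.occ j ≤ 1) ∧
    ∀ v a, dim v = 1 → v a = none → Φ.eval v = some (φ a) := by
  obtain ⟨m, rfl⟩ : ∃ m, h = m + 1 := ⟨h - 1, by omega⟩
  obtain ⟨i, L, hL⟩ : ∃ i L, List.finRange (m + 1) = i :: L := by
    rw [List.finRange_succ]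
    exact ⟨_, _, rfl⟩
  refine ⟨starForm φ i L, fun j => ?_, fun v a hv ha => ?_⟩
  · rw [starForm_occ, ← hL]
    exact List.nodup_iff_count_le_one.mp (List.nodup_finRange _) j
  · rw [starForm_eval φ (eq_none_iff hv ha), ← hL, if_pos (List.mem_finRange a)]

end star

/-! ### greedy selection -/

lemma greedy {α : Type*} [DecidableEq α] (X : Finset α) (R : α → α → Prop) [DecidableRel R]
    (m : ℕ) (hR : ∀ i ∈ X, (X.filter (fun j => R i j)).card ≤ m) :
    ∀ h : ℕ, h * m < X.card ∨ h = 0 → ∃ e : Fin h → α, (∀ a, e a ∈ X) ∧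
      ∀ a b, a < b → ¬ R (e a) (e b) := by
  intro h
  induction h with
  | zero => intro _; exact ⟨fun i => i.elim0, fun i => i.elim0, fun i => i.elim0⟩
  | succ h ih =>
    intro hX
    have hX' : (h + 1) * m < X.card := by
      rcases hX with hX | hX
      · exact hX
      · omega
    have h0 : h * m ≤ (h + 1) * m := Nat.mul_le_mul_right _ (by omega)
    obtain ⟨e, he, hee⟩ := ih (Or.inl (by omega))
    set U := (univ : Finset (Fin h)).biUnion (fun a => X.filter (fun j => R (e a) j)) with hU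
    have h1 : U.card ≤ h * m := by
      refine card_biUnion_le.trans ?_
      refine (sum_le_sum fun a _ => hR (e a) (he a)).trans ?_
      rw [sum_const, card_univ, Fintype.card_fin, smul_eq_mul]
    obtain ⟨x, hx, hxU⟩ := exists_mem_notMem_of_card_lt_card (s := U) (t := X) (by omega)
    refine ⟨Fin.snoc (α := fun _ => α) e x, fun a => ?_, fun a b hab => ?_⟩
    · induction a using Fin.lastCases with
      | last => rw [Fin.snoc_last]; exact hx
      | cast a => rw [Fin.snoc_castSucc]; exact he a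
    · induction b using Fin.lastCases with
      | last =>
        induction a using Fin.lastCases with
        | last => exact absurd hab (lt_irrefl _)
        | cast a =>
          rw [Fin.snoc_last, Fin.snoc_castSucc]
          intro hr
          apply hxU
          rw [hU, mem_biUnion]
          exact ⟨a, mem_univ _, mem_filter.mpr ⟨hx, hr⟩⟩
      | cast b =>
        induction a using Fin.lastCases with
        | last =>
          exact absurd hab (not_lt.mpr (Fin.castSucc_lt_last b).le)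
        | cast a =>
          rw [Fin.snoc_castSucc, Fin.snoc_castSucc]
          exact hee a b (Fin.castSucc_lt_castSucc_iff.mp hab)

/-! ### the theorem -/

section weights

variable {n : ℕ} {T : Type}

open Classical in
/-- the number of edges `u` of direction `i` with `F u ≠ F (flip u j)` -/
noncomputable def wt (F : (Fin n → Option Bool) → T) (i j : Fin n) : ℕ :=
  (univ.filter fun u : Fin n → Option Bool => dim u = 1 ∧ u i = none ∧ F (flip u j) ≠ F u).card

lemma wt_self (F : (Fin n → Option Bool) → T) (i : Fin n) : wt F i i = 0 := by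
  classical
  rw [wt, card_eq_zero, filter_eq_empty_iff]
  rintro u _ ⟨_, h2, h3⟩
  exact h3 (by rw [flip_star h2])

lemma sum_wt (F : (Fin n → Option Bool) → T) : ∑ i, ∑ j, wt F i j = sens F 1 := by
  classical
  rw [sum_comm, sens]
  refine sum_congr rfl fun j _ => ?_
  exact (card_edges_eq_sum (fun u => F (flip u j) ≠ F u)).symm

/-- few sensitive pairs in a large set of directions: `h` directions without sensitive pairs -/
lemma exists_quiet (h : ℕ) {η θ : ℝ} (hη : 0 < η) (hθ : 0 < θ) : ∃ δ : ℝ, 0 < δ ∧ ∃ n₀ : ℕ,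
    ∀ n, n₀ ≤ n → ∀ (T : Type) (F : (Fin n → Option Bool) → T) (X : Finset (Fin n)),
      (sens F 1 : ℝ) ≤ δ * n * (n * 2 ^ (n - 1)) → η * n ≤ X.card →
      ∃ e : Fin h → Fin n, Function.Injective e ∧ (∀ a, e a ∈ X) ∧
        ∀ a b, (wt F (e a) (e b) : ℝ) ≤ θ * 2 ^ (n - 1) := by
  classical
  rcases Nat.eq_zero_or_pos h with rfl | hpos
  · exact ⟨1, one_pos, 0, fun n _ T F X _ _ =>
      ⟨fun i => i.elim0, fun i => i.elim0, fun i => i.elim0, fun i => i.elim0⟩⟩
  have hh : (0 : ℝ) < h := by exact_mod_cast hpos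
  set γ : ℝ := η * θ / (4 * h) with hγ
  have hγ0 : 0 < γ := by positivity
  obtain ⟨n₀, hn₀⟩ := exists_nat_gt (8 * (h : ℝ) / η)
  refine ⟨γ * η / 8, by positivity, n₀ + 1, fun n hn T F X hsens hX => ?_⟩
  have hn1 : 8 * (h : ℝ) / η < n := hn₀.trans_le (by exact_mod_cast (by omega : n₀ ≤ n))
  rw [div_lt_iff₀ hη] at hn1
  have hn0 : (0 : ℝ) < n := by exact_mod_cast (by omega : 0 < n)
  set P : ℝ := 2 ^ (n - 1) with hP
  have hP0 : 0 < P := by positivity
  set deg : Fin n → ℝ := fun i => ∑ j, ((wt F i j : ℝ) + wt F j i) with hdeg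
  have hdeg0 : ∀ i, 0 ≤ deg i := fun i => sum_nonneg fun j _ => by positivity
  have hsum : ∑ i, deg i = 2 * (sens F 1 : ℝ) := by
    simp only [hdeg, sum_add_distrib]
    rw [sum_comm (f := fun i j => (wt F j i : ℝ))]
    have h1 : ∑ i, ∑ j, (wt F i j : ℝ) = (sens F 1 : ℝ) := by
      rw [← sum_wt]; push_cast; rfl
    rw [h1]
    ring
  set X' := X.filter fun i => deg i ≤ γ * n * P with hX'
  set Z := X.filter fun i => ¬ deg i ≤ γ * n * P with hZ
  have hZc : (Z.card : ℝ) ≤ η / 4 * n := by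
    have h1 : (Z.card : ℝ) * (γ * n * P) ≤ ∑ i, deg i := by
      have h2 : ∑ i ∈ Z, (γ * n * P) ≤ ∑ i ∈ Z, deg i :=
        sum_le_sum fun j hj => (not_le.mp (mem_filter.mp hj).2).le
      rw [sum_const, nsmul_eq_mul] at h2
      exact h2.trans (sum_le_sum_of_subset_of_nonneg (subset_univ _) fun i _ _ => hdeg0 i)
    rw [hsum] at h1
    have h2 : (Z.card : ℝ) * (γ * n * P) ≤ (η / 4 * n) * (γ * n * P) := by
      refine h1.trans ?_
      have h3 : 2 * (sens F 1 : ℝ) ≤ 2 * (γ * η / 8 * n * (n * P)) := by linarith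
      refine h3.trans (le_of_eq ?_)
      ring
    exact le_of_mul_le_mul_right h2 (by positivity)
  have hXX : X'.card + Z.card = X.card := card_filter_add_card_filter_not _
  have hX'c : 3 / 4 * η * n ≤ X'.card := by
    have : (X'.card : ℝ) + Z.card = X.card := by exact_mod_cast hXX
    linarith
  set m : ℕ := ⌊η * n / (4 * h)⌋₊ + 1 with hm
  have hmle : (m : ℝ) ≤ η * n / (4 * h) + 1 := by
    rw [hm]
    push_cast
    have := Nat.floor_le (show 0 ≤ η * n / (4 * h) by positivity)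
    linarith
  let R : Fin n → Fin n → Prop := fun i j => i = j ∨ θ * P < (wt F i j : ℝ) + wt F j i
  have hR : ∀ i ∈ X', (X'.filter (fun j => R i j)).card ≤ m := by
    intro i hi
    have hdi : deg i ≤ γ * n * P := (mem_filter.mp hi).2
    set Y := univ.filter fun j => θ * P < (wt F i j : ℝ) + wt F j i with hY
    have h1 : X'.filter (fun j => R i j) ⊆ insert i Y := by
      intro j hj
      rcases (mem_filter.mp hj).2 with rfl | h2
      · exact mem_insert_self _ _
      · exact mem_insert_of_mem (mem_filter.mpr ⟨mem_univ _, h2⟩)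
    have h2 : (Y.card : ℝ) * (θ * P) ≤ deg i := by
      have h3 : ∑ j ∈ Y, (θ * P) ≤ ∑ j ∈ Y, ((wt F i j : ℝ) + wt F j i) :=
        sum_le_sum fun j hj => (mem_filter.mp hj).2.le
      rw [sum_const, nsmul_eq_mul] at h3
      exact h3.trans (sum_le_sum_of_subset_of_nonneg (subset_univ _) fun i _ _ => by positivity)
    have h3 : (Y.card : ℝ) ≤ η * n / (4 * h) := by
      have h4 : (Y.card : ℝ) * (θ * P) ≤ (η * n / (4 * h)) * (θ * P) := by
        refine (h2.trans hdi).trans (le_of_eq ?_)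
        rw [hγ]
        field_simp
      exact le_of_mul_le_mul_right h4 (by positivity)
    have h4 : Y.card ≤ ⌊η * n / (4 * h)⌋₊ := Nat.le_floor h3
    refine (card_le_card h1).trans ((card_insert_le _ _).trans ?_)
    omega
  obtain ⟨e, he, hee⟩ := greedy X' R m hR h (Or.inl (by
    have h1 : ((h * m : ℕ) : ℝ) < X'.card := by
      push_cast
      have h2 : (h : ℝ) * m ≤ h * (η * n / (4 * h) + 1) := mul_le_mul_of_nonneg_left hmle hh.le
      have h3 : (h : ℝ) * (η * n / (4 * h) + 1) = η * n / 4 + h := by field_simp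
      rw [h3] at h2
      have h4 : 0 < η * n := by positivity
      linarith
    exact_mod_cast h1))
  have hne : ∀ a b, a < b → e a ≠ e b := fun a b hab h1 => hee a b hab (Or.inl h1)
  refine ⟨e, fun a b hab => ?_, fun a => (mem_filter.mp (he a)).1, fun a b => ?_⟩
  · rcases lt_trichotomy a b with h1 | h1 | h1
    · exact absurd hab (hne a b h1)
    · exact h1
    · exact absurd hab.symm (hne b a h1)
  · rcases lt_trichotomy a b with h1 | h1 | h1
    · have h2 := hee a b h1
      simp only [R, not_or, not_lt] at h2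
      have : (0 : ℝ) ≤ wt F (e b) (e a) := Nat.cast_nonneg _
      linarith [h2.2]
    · subst h1
      rw [wt_self]
      push_cast
      positivity
    · have h2 := hee b a h1
      simp only [R, not_or, not_lt] at h2
      have : (0 : ℝ) ≤ wt F (e b) (e a) := Nat.cast_nonneg _
      linarith [h2.2]

end weights

open Classical in
theorem low_edges_fin (S A T : Type) [Finite S] [AddCommMonoid A] [Finite A] [Finite T]
    (k D d : ℕ) (hd : 1 ≤ d) (ε : ℝ) (hε : 0 < ε) :
    ∃ δ : ℝ, 0 < δ ∧ ∃ n₀ : ℕ, ∀ n, n₀ ≤ n → ∀ (Φ : Fm n S)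
      (Q : (Fin n → Option Bool) → A) (F : (Fin n → Option Bool) → T) (Ψ : S → A → T → Prop),
      Φ.size ≤ k * n → Loc D Q → (sens F 1 : ℝ) ≤ δ * n * (n * 2 ^ (n - 1)) →
      (∀ s : Fin n → Option Bool, dim s = d →
        ∃ u, dim u = 1 ∧ Sub u s ∧ Ψ (Φ.eval u) (Q u) (F u)) →
      (1 / (B d : ℝ) - ε) * ((n : ℝ) * 2 ^ (n - 1)) ≤ ((univ.filter fun u : Fin n → Option Bool =>
        dim u = 1 ∧ Ψ (Φ.eval u) (Q u) (F u)).card : ℝ) := by
  set η : ℝ := ε / 8 with hη
  have hη0 : 0 < η := by positivity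
  obtain ⟨k', hk'⟩ := exists_nat_gt ((k : ℝ) / η)
  obtain ⟨N, hN⟩ := boundE specHom A D (S × Option T) (k' + 1 + 1) d (ε / 4) hd (by positivity)
  set h := N + 1 with hh
  have hh0 : (0 : ℝ) < h := by rw [hh]; positivity
  set θ : ℝ := (ε / 4) / (2 ^ h * (h * h)) with hθ
  have hθ0 : 0 < θ := by positivity
  obtain ⟨δ, hδ, n₀, hn₀⟩ := exists_quiet h hη0 hθ0
  refine ⟨δ, hδ, n₀ + 1, fun n hn Φ Q F Ψ hsize hQ hsens hcov => ?_⟩
  have hn0 : (0 : ℝ) < n := by exact_mod_cast (by omega : 0 < n)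
  set P : ℝ := 2 ^ (n - 1) with hP
  have hP0 : 0 < P := by positivity
  have h2n : (2 : ℝ) ^ n = 2 * P := by
    rw [hP, ← pow_succ']
    congr 1
    omega
  have hB1 : 1 / (B d : ℝ) ≤ 1 := by
    rcases Nat.eq_zero_or_pos (B d) with h0 | h0
    · rw [h0]; norm_num
    · rw [div_le_one (by exact_mod_cast h0)]
      exact_mod_cast h0
  rcases le_or_gt (1 / (B d : ℝ) - ε) 0 with hneg | hpos
  · refine le_trans ?_ (Nat.cast_nonneg _)
    have : (0 : ℝ) ≤ (n : ℝ) * P := by positivity
    nlinarith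
  set Eq : Fin n → ℕ := fun q => (univ.filter fun u : Fin n → Option Bool =>
    dim u = 1 ∧ u q = none ∧ Ψ (Φ.eval u) (Q u) (F u)).card with hEq
  set Y := univ.filter fun j : Fin n => k' < Φ.occ j with hY
  have hYc : (Y.card : ℝ) ≤ η * n := by
    have h1 : (k' + 1) * Y.card ≤ k * n := card_often Φ k hsize k'
    have h4 : ((k' : ℝ) + 1) * Y.card ≤ k * n := by exact_mod_cast h1
    rw [div_lt_iff₀ hη0] at hk'
    have h6 : ((k' : ℝ) + 1) * Y.card ≤ ((k' : ℝ) + 1) * (η * n) := by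
      refine h4.trans ?_
      nlinarith
    exact le_of_mul_le_mul_left h6 (by positivity)
  -- directions of small density which are read seldom
  set X := univ.filter fun j : Fin n => Φ.occ j ≤ k' ∧ (Eq j : ℝ) < (1 / (B d : ℝ) - ε / 2) * P with hX
  have hXc : (X.card : ℝ) < η * n := by
    by_contra hcon
    push Not at hcon
    obtain ⟨e, he, heX, hwt⟩ := hn₀ n (by omega) T F X hsens hcon
    have hocc : ∀ j, Φ.occ (e j) ≤ k' := fun j => (mem_filter.mp (heX j)).2.1
    have hlow : ∀ j, (Eq (e j) : ℝ) < (1 / (B d : ℝ) - ε / 2) * P :=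
      fun j => (mem_filter.mp (heX j)).2.2
    have hbad : ((bad F e 1).card : ℝ) ≤ (ε / 4) * 2 ^ n := by
      have h1 := card_bad F he 1
      have h2 : ((bad F e 1).card : ℝ) ≤ 2 ^ h * ∑ b : Fin h, ∑ a : Fin h, (wt F (e a) (e b) : ℝ) := by
        have h3 : (bad F e 1).card ≤ 2 ^ h * ∑ b : Fin h, ∑ a : Fin h, wt F (e a) (e b) := by
          refine h1.trans (Nat.mul_le_mul_left _ (sum_le_sum fun b _ => le_of_eq ?_))
          exact card_edges_range he (fun u => F (flip u (e b)) ≠ F u)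
        exact_mod_cast h3
      have h3 : ∑ b : Fin h, ∑ a : Fin h, (wt F (e a) (e b) : ℝ) ≤ h * (h * (θ * P)) := by
        refine (sum_le_sum fun b _ => sum_le_sum fun a _ => hwt a b).trans ?_
        rw [sum_const, sum_const, card_univ, Fintype.card_fin, nsmul_eq_mul, nsmul_eq_mul]
      have h4 : (2 : ℝ) ^ h * (h * (h * (θ * P))) = ε / 4 * P := by
        rw [hθ]
        field_simp
      calc ((bad F e 1).card : ℝ) ≤ 2 ^ h * (h * (h * (θ * P))) := by
            refine h2.trans ?_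
            gcongr
        _ = ε / 4 * P := h4
        _ ≤ ε / 4 * 2 ^ n := by
            rw [h2n]
            have : 0 ≤ ε / 4 * P := by positivity
            linarith
    have hgood : ∀ y, y ∉ bad F e 1 → (1 / (B d : ℝ) - ε / 4) * ((h : ℝ) * 2 ^ (h - 1)) ≤
        ((univ.filter fun v : Fin h → Option Bool =>
          dim v = 1 ∧ Ψ (Φ.eval (ext e v y)) (Q (ext e v y)) (F (ext e v y))).card : ℝ) := by
      intro y hy
      obtain ⟨Φ₁, h2, h3⟩ := exists_restr he (by omega) y Φ k' hocc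
      have hg : ∀ v : Fin h → Option Bool, dim v = 1 → ∀ b,
          F (ext e (flip v b) y) = F (ext e v y) := by
        intro v hv b
        by_contra hne
        apply hy
        simp only [bad, mem_filter, mem_univ, true_and]
        exact ⟨v, hv, b, by rw [flip_ext he]; exact hne⟩
      let vs : Fin h → (Fin h → Option Bool) := fun a j => if j = a then none else some false
      have hF : ∀ (v : Fin h → Option Bool) (a : Fin h), dim v = 1 → v a = none →
          F (ext e v y) = F (ext e (vs a) y) := by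
        intro v a hv ha
        refine const_of_flip' (g := fun v => F (ext e v y)) hg hv fun j => ?_
        rw [eq_none_iff hv ha j]
        by_cases hj : j = a <;> simp [vs, hj]
      obtain ⟨Φ₂, h4, h5⟩ := exists_star (fun a => F (ext e (vs a) y)) (by omega : 0 < h)
      obtain ⟨Φ₃, h6, h7⟩ := exists_pair Φ₁ Φ₂
      have hiff : ∀ v : Fin h → Option Bool, dim v = 1 →
          ((∃ t, (Φ₃.eval v).2 = some t ∧ Ψ (Φ₃.eval v).1 (Q (ext e v y)) t) ↔
            Ψ (Φ.eval (ext e v y)) (Q (ext e v y)) (F (ext e v y))) := by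
        intro v hv
        obtain ⟨a, ha⟩ := exists_dir hv
        rw [h7, h3, h5 v a hv ha, ← hF v a hv ha]
        constructor
        · rintro ⟨t, ht, h8⟩
          rw [Option.some_inj] at ht
          subst ht
          exact h8
        · intro h8
          exact ⟨_, rfl, h8⟩
      have h8 := hN h (by omega) Φ₃ (fun v => Q (ext e v y))
        (fun s a => ∃ t, s.2 = some t ∧ Ψ s.1 a t)
        (fun j => by rw [h6]; exact Nat.add_le_add (h2 j) (h4 j)) (hQ.restr he y) (by
          intro s hs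
          obtain ⟨v, h9, h10, h11⟩ := covers_restrict he
            (fun u => Ψ (Φ.eval u) (Q u) (F u)) hcov y s hs
          exact ⟨v, h9, h10, (hiff v h9).mpr h11⟩)
      refine h8.trans (le_of_eq ?_)
      congr 2
      ext v
      simp only [mem_filter, mem_univ, true_and]
      constructor
      · rintro ⟨h9, h10⟩
        exact ⟨h9, (hiff v h9).mp h10⟩
      · rintro ⟨h9, h10⟩
        exact ⟨h9, (hiff v h9).mpr h10⟩
    have key := sum_good (fun u => Ψ (Φ.eval u) (Q u) (F u)) he 1 (bad F e 1) hgood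
    rw [card_edges_range he (fun u => Ψ (Φ.eval u) (Q u) (F u))] at key
    have hlt : ∑ j : Fin h, (Eq (e j) : ℝ) < h * ((1 / (B d : ℝ) - ε / 2) * P) := by
      have h1 : ∑ j : Fin h, (Eq (e j) : ℝ) < ∑ _j : Fin h, ((1 / (B d : ℝ) - ε / 2) * P) :=
        sum_lt_sum_of_nonempty ⟨⟨0, by omega⟩, mem_univ _⟩ fun j _ => hlow j
      rwa [sum_const, card_univ, Fintype.card_fin, nsmul_eq_mul] at h1
    push_cast at key
    have hkey2 : (2 : ℝ) ^ h * ∑ j : Fin h, (Eq (e j) : ℝ) <
        2 ^ h * (h * ((1 / (B d : ℝ) - ε / 2) * P)) := mul_lt_mul_of_pos_left hlt (by positivity)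
    have h2h : (2 : ℝ) ^ h = 2 * 2 ^ (h - 1) := by
      rw [← pow_succ']
      congr 1
    set c : ℝ := 1 / (B d : ℝ) - ε / 4 with hc
    have hc0 : 0 < c := by rw [hc]; linarith
    have hc1 : c ≤ 1 := by rw [hc]; linarith
    have h9 : (2 ^ n - ε / 4 * 2 ^ n) * (c * ((h : ℝ) * 2 ^ (h - 1))) ≤
        (2 ^ n - ((bad F e 1).card : ℝ)) * (c * ((h : ℝ) * 2 ^ (h - 1))) :=
      mul_le_mul_of_nonneg_right (by linarith) (by positivity)
    have h10 := (h9.trans key).trans_lt hkey2
    rw [h2n, h2h] at h10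
    have h11 : (2 * P - ε / 4 * (2 * P)) * (c * ((h : ℝ) * 2 ^ (h - 1))) =
        (2 * 2 ^ (h - 1) * (h * P)) * ((1 - ε / 4) * c) := by ring
    have h12 : 2 * (2 : ℝ) ^ (h - 1) * (h * ((1 / (B d : ℝ) - ε / 2) * P)) =
        (2 * 2 ^ (h - 1) * (h * P)) * (c - ε / 4) := by rw [hc]; ring
    rw [h11, h12] at h10
    have h13 : (1 - ε / 4) * c < c - ε / 4 := lt_of_mul_lt_mul_left h10 (by positivity)
    have h14 : ε / 4 * c ≤ ε / 4 * 1 := mul_le_mul_of_nonneg_left hc1 (by positivity)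
    linarith
  -- conclusion
  have hsum : ((univ.filter fun u : Fin n → Option Bool =>
      dim u = 1 ∧ Ψ (Φ.eval u) (Q u) (F u)).card : ℝ) = ∑ q : Fin n, (Eq q : ℝ) := by
    rw [card_edges_eq_sum (fun u => Ψ (Φ.eval u) (Q u) (F u))]
    push_cast
    rfl
  rw [hsum]
  set G := univ.filter fun j : Fin n => (1 / (B d : ℝ) - ε / 2) * P ≤ (Eq j : ℝ) with hG
  have hGc : (1 - 2 * η) * n ≤ G.card := by
    have h1 : (univ : Finset (Fin n)) ⊆ G ∪ (X ∪ Y) := by
      intro j _
      simp only [hX, hY, hG, mem_union, mem_filter, mem_univ, true_and]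
      by_cases h1 : (1 / (B d : ℝ) - ε / 2) * P ≤ (Eq j : ℝ)
      · exact Or.inl h1
      · by_cases h2 : Φ.occ j ≤ k'
        · exact Or.inr (Or.inl ⟨h2, not_le.mp h1⟩)
        · exact Or.inr (Or.inr (not_le.mp h2))
    have h2 := card_le_card h1
    rw [card_univ, Fintype.card_fin] at h2
    have h3 := (h2.trans (card_union_le _ _)).trans
      (Nat.add_le_add_left (card_union_le X Y) G.card)
    have h4 : (n : ℝ) ≤ G.card + (X.card + Y.card) := by exact_mod_cast h3
    linarith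
  have hge : (G.card : ℝ) * ((1 / (B d : ℝ) - ε / 2) * P) ≤ ∑ q : Fin n, (Eq q : ℝ) := by
    have h1 : ∑ q ∈ G, ((1 / (B d : ℝ) - ε / 2) * P) ≤ ∑ q ∈ G, (Eq q : ℝ) :=
      sum_le_sum fun q hq => (mem_filter.mp hq).2
    rw [sum_const, nsmul_eq_mul] at h1
    exact h1.trans (sum_le_sum_of_subset_of_nonneg (subset_univ _) fun _ _ _ => Nat.cast_nonneg _)
  refine le_trans ?_ hge
  have hc0 : 0 ≤ 1 / (B d : ℝ) - ε / 2 := by linarith
  have h1 : (1 / (B d : ℝ) - ε) * n ≤ (1 - 2 * η) * n * (1 / (B d : ℝ) - ε / 2) := by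
    have h2 : (1 / (B d : ℝ) - ε) ≤ (1 - 2 * η) * (1 / (B d : ℝ) - ε / 2) := by
      rw [hη]
      have h3 : 2 * (ε / 8) * (1 / (B d : ℝ) - ε / 2) ≤ 2 * (ε / 8) * 1 :=
        mul_le_mul_of_nonneg_left (by linarith) (by positivity)
      linarith
    have := mul_le_mul_of_nonneg_right h2 hn0.le
    linarith
  have h2 : (1 - 2 * η) * n * (1 / (B d : ℝ) - ε / 2) ≤ G.card * (1 / (B d : ℝ) - ε / 2) :=
    mul_le_mul_of_nonneg_right hGc hc0
  have h3 := mul_le_mul_of_nonneg_right (h1.trans h2) hP0.le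
  calc (1 / (B d : ℝ) - ε) * ((n : ℝ) * P) = (1 / (B d : ℝ) - ε) * n * P := by ring
    _ ≤ G.card * (1 / (B d : ℝ) - ε / 2) * P := h3
    _ = _ := by ring

open Classical in
/-- **Edges.** A formula with at most `k * n` leaves over a finite alphabet, a sum of `D`-local
functions with values in a finite commutative monoid, and an arbitrary function of the edges whose
average sensitivity is at most `δ * n`. -/
theorem low_edges (S A : Type) [Finite S] [AddCommMonoid A] [Finite A]
    (k D d : ℕ) (hd : 1 ≤ d) (ε : ℝ) (hε : 0 < ε) :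
    ∃ δ : ℝ, 0 < δ ∧ ∃ n₀ : ℕ, ∀ n, n₀ ≤ n → ∀ (T : Type) (Φ : Fm n S)
      (Q : (Fin n → Option Bool) → A) (F : (Fin n → Option Bool) → T) (Ψ : S → A → T → Prop),
      Φ.size ≤ k * n → Loc D Q → (sens F 1 : ℝ) ≤ δ * n * (n * 2 ^ (n - 1)) →
      (∀ s : Fin n → Option Bool, dim s = d →
        ∃ u, dim u = 1 ∧ Sub u s ∧ Ψ (Φ.eval u) (Q u) (F u)) →
      (1 / (B d : ℝ) - ε) * ((n : ℝ) * 2 ^ (n - 1)) ≤ ((univ.filter fun u : Fin n → Option Bool =>
        dim u = 1 ∧ Ψ (Φ.eval u) (Q u) (F u)).card : ℝ) := by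
  obtain ⟨δ, hδ, n₀, hn₀⟩ := low_edges_fin S A (S → A → Prop) k D d hd ε hε
  refine ⟨δ, hδ, n₀, fun n hn T Φ Q F Ψ hsize hQ hsens hcov => ?_⟩
  refine hn₀ n hn Φ Q (fun u s a => Ψ s a (F u)) (fun s a t => t s a) hsize hQ ?_ hcov
  refine le_trans ?_ hsens
  have : sens (fun u s a => Ψ s a (F u)) 1 ≤ sens F 1 := by
    unfold sens
    refine sum_le_sum fun j _ => card_le_card fun u hu => ?_
    simp only [mem_filter, mem_univ, true_and] at hu ⊢
    refine ⟨hu.1, fun h1 => hu.2 ?_⟩
    rw [h1]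
  exact_mod_cast this

end Pool.Agent.Lib.MP_53850c_co.PD
end
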