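import Pool.Agent.Lib.MP_53850c_co.PD.Main
import Pool.Agent.Lib.MP_53850c_co.PD.Hom

/-!
# Sensitivity and restrictions to small cubes
-/

set_option autoImplicit false

namespace Pool.Agent.Lib.MP_53850c_co.PD

open Finset Pool.Agent.Lib.MP_53850c_co.BW Pool.Agent.Lib.MP_53850c_co.LF

section low

variable {n h : ℕ} {T : Type*}

/-- the word `u` with the bit at `j` flipped (`u` itself if `u j` is a star) -/
def flip (u : Fin n → Option Bool) (j : Fin n) : Fin n → Option Bool :=
  Function.update u j ((u j).map not)

lemma flip_self (u : Fin n → Option Bool) (j : Fin n) : flip u j j = (u j).map not := by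
  simp [flip]

lemma flip_ne (u : Fin n → Option Bool) {i j : Fin n} (h : i ≠ j) : flip u j i = u i := by
  simp [flip, h]

lemma flip_eq_none (u : Fin n → Option Bool) (i j : Fin n) : flip u j i = none ↔ u i = none := by
  by_cases h : i = j
  · subst h
    rw [flip_self]
    simp
  · rw [flip_ne u h]

lemma dim_flip (u : Fin n → Option Bool) (j : Fin n) : dim (flip u j) = dim u := by
  unfold dim
  congr 1
  ext i
  simp [flip_eq_none]

lemma flip_star {u : Fin n → Option Bool} {j : Fin n} (h : u j = none) : flip u j = u := by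
  funext i
  by_cases hi : i = j
  · subst hi
    rw [flip_self, h]
    rfl
  · rw [flip_ne u hi]

lemma flip_ext {e : Fin h → Fin n} (he : Function.Injective e) (v : Fin h → Option Bool)
    (y : Fin n → Bool) (b : Fin h) : flip (ext e v y) (e b) = ext e (flip v b) y := by
  funext i
  by_cases hex : ∃ j, e j = i
  · obtain ⟨j, rfl⟩ := hex
    rw [ext_apply he]
    by_cases hj : j = b
    · subst hj
      rw [flip_self, flip_self, ext_apply he]
    · rw [flip_ne _ (fun h => hj (he h)), flip_ne _ hj, ext_apply he]
  · rw [ext_apply' _ _ hex, flip_ne, ext_apply' _ _ hex]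
    rintro rfl
    exact hex ⟨b, rfl⟩

open Classical in
/-- the number of pairs (face `u` of dimension `l`, coordinate `j`) with `F u ≠ F (flip u j)` -/
noncomputable def sens (F : (Fin n → Option Bool) → T) (l : ℕ) : ℕ :=
  ∑ j : Fin n, (univ.filter fun u : Fin n → Option Bool => dim u = l ∧ F (flip u j) ≠ F u).card

/-- a function on the `l`-faces which does not change under flips depends on the stars only -/
lemma const_of_flip {g : (Fin h → Option Bool) → T} {l : ℕ}
    (hg : ∀ v, dim v = l → ∀ b, g (flip v b) = g v) : ∀ (m : ℕ) (v v' : Fin h → Option Bool),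
      (univ.filter fun j => v j ≠ v' j).card = m → dim v = l → (∀ j, v j = none ↔ v' j = none) →
      g v = g v' := by
  intro m
  induction m with
  | zero =>
    intro v v' h0 _ _
    rw [card_eq_zero, filter_eq_empty_iff] at h0
    congr 1
    funext j
    have := h0 (mem_univ j)
    simpa using this
  | succ m ih =>
    intro v v' hm hd hs
    obtain ⟨j, hj⟩ : (univ.filter fun j => v j ≠ v' j).Nonempty := card_pos.mp (by omega)
    have hj' : v j ≠ v' j := (mem_filter.mp hj).2
    have h1 : (v j).map not = v' j := by
      rcases hv : v j with _ | a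
      · have := (hs j).mp hv
        rw [hv, this] at hj'
        exact absurd rfl hj'
      · rcases hv' : v' j with _ | a'
        · have := (hs j).mpr hv'
          rw [hv] at this
          exact absurd this (by simp)
        · rw [hv, hv'] at hj'
          cases a <;> cases a' <;> simp_all
    rw [← hg v hd j]
    refine ih (flip v j) v' ?_ (by rw [dim_flip, hd]) (fun i => by rw [flip_eq_none, hs])
    have h2 : (univ.filter fun i => flip v j i ≠ v' i) = (univ.filter fun i => v i ≠ v' i).erase j := by
      ext i
      rw [mem_erase, mem_filter, mem_filter]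
      by_cases hi : i = j
      · subst hi
        rw [flip_self, h1]
        simp
      · rw [flip_ne v hi]
        simp [hi]
    rw [h2, card_erase_of_mem hj, hm]
    rfl

lemma const_of_flip' {g : (Fin h → Option Bool) → T} {l : ℕ}
    (hg : ∀ v, dim v = l → ∀ b, g (flip v b) = g v) {v v' : Fin h → Option Bool} (hv : dim v = l)
    (hs : ∀ j, v j = none ↔ v' j = none) : g v = g v' :=
  const_of_flip hg _ v v' rfl hv hs

open Classical in
/-- the restrictions on which `F` is sensitive -/
noncomputable def bad (F : (Fin n → Option Bool) → T) (e : Fin h → Fin n) (l : ℕ) :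
    Finset (Fin n → Bool) :=
  univ.filter fun y => ∃ v : Fin h → Option Bool, dim v = l ∧
    ∃ b, F (flip (ext e v y) (e b)) ≠ F (ext e v y)

open Classical in
lemma card_bad (F : (Fin n → Option Bool) → T) {e : Fin h → Fin n} (he : Function.Injective e)
    (l : ℕ) : (bad F e l).card ≤ 2 ^ h * ∑ b : Fin h, (univ.filter fun u : Fin n → Option Bool =>
      dim u = l ∧ (∀ i, (¬ ∃ j, e j = i) → u i ≠ none) ∧ F (flip u (e b)) ≠ F u).card := by
  have h1 : ∀ y : Fin n → Bool, (if y ∈ bad F e l then 1 else 0) ≤ ∑ b : Fin h,
      (univ.filter fun v : Fin h → Option Bool =>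
        dim v = l ∧ F (flip (ext e v y) (e b)) ≠ F (ext e v y)).card := by
    intro y
    split_ifs with hy
    · simp only [bad, mem_filter, mem_univ, true_and] at hy
      obtain ⟨v, hv, b, hb⟩ := hy
      refine le_trans ?_ (single_le_sum (f := fun b : Fin h =>
        (univ.filter fun v : Fin h → Option Bool =>
          dim v = l ∧ F (flip (ext e v y) (e b)) ≠ F (ext e v y)).card)
        (fun _ _ => Nat.zero_le _) (mem_univ b))
      exact card_pos.mpr ⟨v, by simp only [mem_filter, mem_univ, true_and]; exact ⟨hv, hb⟩⟩
    · exact Nat.zero_le _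
  have h2 : (bad F e l).card = ∑ y : Fin n → Bool, (if y ∈ bad F e l then 1 else 0) := by
    rw [← card_filter]
    congr 1
    ext y
    simp
  rw [h2]
  refine (sum_le_sum fun y _ => h1 y).trans ?_
  rw [sum_comm, mul_sum]
  refine sum_le_sum fun b _ => le_of_eq ?_
  exact sum_card_ext he (fun u => F (flip u (e b)) ≠ F u) l

/-- summing over the good restrictions -/
lemma sum_good (E : (Fin n → Option Bool) → Prop) [DecidablePred E] {e : Fin h → Fin n}
    (he : Function.Injective e) (l : ℕ) (Bad : Finset (Fin n → Bool)) {K : ℝ} 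
    (hge : ∀ y, y ∉ Bad →
      K ≤ ((univ.filter fun v : Fin h → Option Bool => dim v = l ∧ E (ext e v y)).card : ℝ)) :
    (2 ^ n - (Bad.card : ℝ)) * K ≤ 2 ^ h * ((univ.filter fun u : Fin n → Option Bool =>
      dim u = l ∧ (∀ i, (¬ ∃ j, e j = i) → u i ≠ none) ∧ E u).card : ℝ) := by
  classical
  have h3 := sum_card_ext he E l
  have h4 : ∑ y : Fin n → Bool, ((univ.filter fun v : Fin h → Option Bool =>
      dim v = l ∧ E (ext e v y)).card : ℝ) = 2 ^ h * ((univ.filter fun u : Fin n → Option Bool =>
      dim u = l ∧ (∀ i, (¬ ∃ j, e j = i) → u i ≠ none) ∧ E u).card : ℝ) := by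
    exact_mod_cast h3
  rw [← h4]
  have h5 : ∑ y ∈ univ.filter (fun y : Fin n → Bool => y ∉ Bad), K ≤
      ∑ y : Fin n → Bool, ((univ.filter fun v : Fin h → Option Bool =>
        dim v = l ∧ E (ext e v y)).card : ℝ) := by
    refine (sum_le_sum fun y hy => hge y (mem_filter.mp hy).2).trans ?_
    exact sum_le_sum_of_subset_of_nonneg (filter_subset _ _) fun _ _ _ => Nat.cast_nonneg _
  refine le_trans (le_of_eq ?_) h5
  rw [sum_const, nsmul_eq_mul]
  congr 1
  have h6 : (univ.filter (fun y : Fin n → Bool => y ∉ Bad)) = univ \ Bad := by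
    ext y; simp
  rw [h6, card_sdiff_of_subset (subset_univ _), card_univ, Fintype.card_fun, Fintype.card_bool,
    Fintype.card_fin, Nat.cast_sub]
  · push_cast
    ring
  · have := card_le_univ Bad
    rwa [Fintype.card_fun, Fintype.card_bool, Fintype.card_fin] at this

end low

end Pool.Agent.Lib.MP_53850c_co.PD
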