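import Pool.Agent.Lib.MP_53850c_co.PD.Defs
import Pool.Agent.Lib.MP_53850c_co.LF.Main0

section
/-!
# Ramsey's theorem for strictly increasing tuples and finitely many colours
-/
set_option autoImplicit false

namespace Pool.Agent.Lib.MP_53850c_co.PD

open Finset

/-- pigeonhole: a large finite set has a large subset on which `g` is constant -/
lemma exists_const_subset {κ α : Type} [Fintype κ] [Nonempty κ] (m : ℕ) {S : Finset α}
    (hS : Fintype.card κ * m ≤ S.card) (g : α → κ) :
    ∃ T ⊆ S, T.card = m ∧ ∃ k, ∀ x ∈ T, g x = k := by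
  classical
  rcases Nat.eq_zero_or_pos m with rfl | hm
  · exact ⟨∅, empty_subset _, rfl, Classical.arbitrary κ, by simp⟩
  by_contra hcon
  push Not at hcon
  have h1 : ∀ k : κ, (S.filter (fun x => g x = k)).card < m := by
    intro k
    by_contra h2
    push Not at h2
    obtain ⟨T, hT, hTc⟩ := exists_subset_card_eq h2
    obtain ⟨x, hx, hxk⟩ := hcon T (hT.trans (filter_subset _ _)) hTc k
    exact hxk (mem_filter.mp (hT hx)).2
  have h2 : S.card = ∑ k : κ, (S.filter (fun x => g x = k)).card :=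
    card_eq_sum_card_fiberwise (fun x _ => by simp)
  have h3 : ∑ k : κ, (S.filter (fun x => g x = k)).card < ∑ _k : κ, m :=
    sum_lt_sum_of_nonempty univ_nonempty (fun k _ => h1 k)
  rw [sum_const, card_univ, smul_eq_mul] at h3
  omega

/-- the induction: `Ram κ r m N` -/
def Ram (κ : Type) (r m N : ℕ) : Prop := ∀ (α : Type) [LinearOrder α] (c : (Fin r → α) → κ)
  (S : Finset α), N ≤ S.card → ∃ (T : Finset α) (k₀ : κ), T ⊆ S ∧
    T.card = m ∧ ∀ t : Fin r → α, StrictMono t → (∀ i, t i ∈ T) → c t = k₀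

lemma exists_endhom {κ : Type} [Nonempty κ] {r : ℕ} (hr : ∀ m, ∃ N, Ram κ r m N) (k : ℕ) :
    ∃ N : ℕ, ∀ (α : Type) [LinearOrder α] (c : (Fin (r + 1) → α) → κ) (S : Finset α),
      N ≤ S.card → ∃ (T : Finset α) (g : α → κ), T ⊆ S ∧ T.card = k ∧
        ∀ t : Fin (r + 1) → α, StrictMono t → (∀ i, t i ∈ T) → c t = g (t 0) := by
  classical
  induction k with
  | zero => exact ⟨0, fun α _ c S _ => ⟨∅, fun _ => Classical.arbitrary κ, empty_subset _, rfl,
      fun t _ h => absurd (h 0) (by simp)⟩⟩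
  | succ k ih =>
    obtain ⟨N, hN⟩ := ih
    obtain ⟨N₁, hN₁⟩ := hr N
    refine ⟨N₁ + 1, fun α _ c S hS => ?_⟩
    have hne : S.Nonempty := card_pos.mp (by omega)
    set a := S.min' hne with ha
    have haS : a ∈ S := min'_mem _ _
    have h1 : N₁ ≤ (S.erase a).card := by
      rw [card_erase_of_mem haS]; omega
    obtain ⟨S', k₀, hS', hc', hk₀⟩ := hN₁ α (fun t => c (Fin.cons a t)) (S.erase a) h1
    obtain ⟨T, g, hT, hTc, hg⟩ := hN α c S' hc'.ge
    have haT : a ∉ T := fun h => (mem_erase.mp (hS' (hT h))).1 rfl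
    have hlt : ∀ x ∈ T, a < x := by
      intro x hx
      have h2 := hS' (hT hx)
      exact lt_of_le_of_ne (min'_le S x (mem_of_mem_erase h2)) (Ne.symm (ne_of_mem_erase h2))
    refine ⟨insert a T, fun x => if x = a then k₀ else g x,
      insert_subset haS (fun x hx => mem_of_mem_erase (hS' (hT hx))),
      by rw [card_insert_of_notMem haT, hTc], fun t ht hmem => ?_⟩
    have hsucc : ∀ i : Fin r, t i.succ ∈ T := by
      intro i
      rcases mem_insert.mp (hmem i.succ) with h | h
      · exfalso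
        have h3 := ht (Fin.succ_pos i)
        rw [h] at h3
        rcases mem_insert.mp (hmem 0) with h4 | h4
        · rw [h4] at h3
          exact lt_irrefl _ h3
        · exact lt_asymm h3 (hlt _ h4)
      · exact h
    rcases mem_insert.mp (hmem 0) with h0 | h0
    · have h2 := hk₀ (fun i => t i.succ) (fun i j hij => ht (Fin.succ_lt_succ_iff.mpr hij))
        (fun i => hT (hsucc i))
      simp only [h0, if_true]
      rw [← h2]
      congr 1
      funext i
      refine Fin.cases ?_ (fun j => ?_) i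
      · simp [h0]
      · simp
    · have hne0 : t 0 ≠ a := fun h => haT (h ▸ h0)
      simp only [if_neg hne0]
      exact hg t ht (fun i => Fin.cases h0 hsucc i)

lemma ram (κ : Type) [Finite κ] [Nonempty κ] (r m : ℕ) : ∃ N, Ram κ r m N := by
  classical
  cases nonempty_fintype κ
  induction r generalizing m with
  | zero =>
    refine ⟨m, fun α _ c S hS => ?_⟩
    obtain ⟨T, hT, hTc⟩ := exists_subset_card_eq hS
    exact ⟨T, c Fin.elim0, hT, hTc, fun t _ _ => congrArg c (funext fun i => i.elim0)⟩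
  | succ r ih =>
    obtain ⟨N, hN⟩ := exists_endhom ih (Fintype.card κ * m)
    refine ⟨N, fun α _ c S hS => ?_⟩
    obtain ⟨T, g, hT, hTc, hg⟩ := hN α c S hS
    obtain ⟨T₁, hT₁, hm, k, hk⟩ := exists_const_subset m hTc.ge g
    exact ⟨T₁, k, hT₁.trans hT, hm, fun t ht hmem => by
      rw [hg t ht (fun i => hT₁ (hmem i)), hk _ (hmem 0)]⟩

/-- **Ramsey's theorem** for strictly increasing tuples. -/
theorem specHyp : SpecHyp := by
  classical
  intro κ _ r m
  rcases isEmpty_or_nonempty κ with hκ | hκ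
  · refine ⟨1, fun α _ c S hS => ?_⟩
    obtain ⟨a, _⟩ := card_pos.mp (Nat.lt_of_lt_of_le Nat.zero_lt_one hS)
    exact (hκ.false (c fun _ => a)).elim
  · exact ram κ r m

end Pool.Agent.Lib.MP_53850c_co.PD
end

section
/-!
# Restriction and pairing of formulas; restriction of sums of local functions
-/
set_option autoImplicit false

namespace Pool.Agent.Lib.MP_53850c_co.PD

open Finset Pool.Agent.Lib.MP_53850c_co.BW Pool.Agent.Lib.MP_53850c_co.LF

/-! ### formulas -/

section fm

variable {n h : ℕ} {S S' M : Type}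

lemma exists_mapU (φ : S → S) (Φ : Fm n S) :
    ∃ Φ' : Fm n S, (∀ j, Φ'.occ j = Φ.occ j) ∧ ∀ u, Φ'.eval u = φ (Φ.eval u) := by
  cases Φ with
  | leaf i f => exact ⟨.leaf i (fun a => φ (f a)), fun j => rfl, fun u => rfl⟩
  | gate g l r => exact ⟨.gate (fun a b => φ (g a b)) l r, fun j => rfl, fun u => rfl⟩

lemma exists_map (ι : S → S') (ρ : S' → S) (hρ : ∀ s, ρ (ι s) = s) (Φ : Fm n S) :
    ∃ Φ' : Fm n S', (∀ j, Φ'.occ j = Φ.occ j) ∧ ∀ u, Φ'.eval u = ι (Φ.eval u) := by
  induction Φ with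
  | leaf i f => exact ⟨.leaf i (fun a => ι (f a)), fun j => rfl, fun u => rfl⟩
  | gate g l r ihl ihr =>
    obtain ⟨l', h1, h2⟩ := ihl
    obtain ⟨r', h3, h4⟩ := ihr
    refine ⟨.gate (fun a b => ι (g (ρ a) (ρ b))) l' r', fun j => ?_, fun u => ?_⟩
    · simp only [Fm.occ, h1, h3]
    · simp only [Fm.eval, h2, h4, hρ]

lemma exists_pair (Φ : Fm n S) (Φ' : Fm n M) :
    ∃ Φ₂ : Fm n (S × M), (∀ j, Φ₂.occ j = Φ.occ j + Φ'.occ j) ∧
      ∀ u, Φ₂.eval u = (Φ.eval u, Φ'.eval u) := by
  have s0 : S := Φ.eval fun _ => none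
  have m0 : M := Φ'.eval fun _ => none
  obtain ⟨Φ₃, h1, h2⟩ := exists_map (fun s => (s, m0)) Prod.fst (fun _ => rfl) Φ
  obtain ⟨Φ₄, h3, h4⟩ := exists_map (fun m => (s0, m)) Prod.snd (fun _ => rfl) Φ'
  refine ⟨.gate (fun a b => (a.1, b.2)) Φ₃ Φ₄, fun j => ?_, fun u => ?_⟩
  · simp only [Fm.occ, h1, h3]
  · simp only [Fm.eval, h2, h4]

lemma exists_restr_aux {e : Fin h → Fin n} (he : Function.Injective e) (y : Fin n → Bool)
    (Φ : Fm n S) :
    (∃ a, ∀ v, Φ.eval (ext e v y) = a) ∨
      ∃ Φ' : Fm h S, (∀ j, Φ'.occ j ≤ Φ.occ (e j)) ∧ ∀ v, Φ'.eval v = Φ.eval (ext e v y) := by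
  induction Φ with
  | leaf i f =>
    by_cases hi : ∃ j, e j = i
    · obtain ⟨j, rfl⟩ := hi
      right
      refine ⟨.leaf j f, fun q => ?_, fun v => ?_⟩
      · simp only [Fm.occ, he.eq_iff]
        exact le_rfl
      · simp only [Fm.eval, ext_apply he]
    · left
      exact ⟨f (some (y i)), fun v => by simp only [Fm.eval, ext_apply' v y hi]⟩
  | gate g l r ihl ihr =>
    rcases ihl with ⟨a, ha⟩ | ⟨l', h1, h2⟩
    · rcases ihr with ⟨b, hb⟩ | ⟨r', h3, h4⟩
      · left
        exact ⟨g a b, fun v => by simp only [Fm.eval, ha, hb]⟩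
      · right
        obtain ⟨r'', h5, h6⟩ := exists_mapU (g a) r'
        refine ⟨r'', fun j => ?_, fun v => ?_⟩
        · rw [h5]
          have := h3 j
          simp only [Fm.occ]
          omega
        · rw [h6, h4]
          simp only [Fm.eval, ha]
    · rcases ihr with ⟨b, hb⟩ | ⟨r', h3, h4⟩
      · right
        obtain ⟨l'', h5, h6⟩ := exists_mapU (fun x => g x b) l'
        refine ⟨l'', fun j => ?_, fun v => ?_⟩
        · rw [h5]
          have := h1 j
          simp only [Fm.occ]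
          omega
        · rw [h6, h2]
          simp only [Fm.eval, hb]
      · right
        refine ⟨.gate g l' r', fun j => ?_, fun v => ?_⟩
        · have := h1 j
          have := h3 j
          simp only [Fm.occ]
          omega
        · simp only [Fm.eval, h2, h4]

/-- the restriction of a formula -/
lemma exists_restr {e : Fin h → Fin n} (he : Function.Injective e) (hh : 0 < h) (y : Fin n → Bool)
    (Φ : Fm n S) (k : ℕ) (hk : ∀ j, Φ.occ (e j) ≤ k) :
    ∃ Φ' : Fm h S, (∀ j, Φ'.occ j ≤ k + 1) ∧ ∀ v, Φ'.eval v = Φ.eval (ext e v y) := by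
  rcases exists_restr_aux he y Φ with ⟨a, ha⟩ | ⟨Φ', h1, h2⟩
  · refine ⟨.leaf ⟨0, hh⟩ (fun _ => a), fun j => ?_, fun v => ?_⟩
    · simp only [Fm.occ]
      split_ifs <;> omega
    · rw [ha]; rfl
  · exact ⟨Φ', fun j => (h1 j).trans ((hk j).trans (Nat.le_succ k)), h2⟩

end fm

/-! ### sums of local functions -/

section loc

variable {n h D : ℕ} {A : Type} [AddCommMonoid A]

lemma loc_of_dep {K' : Finset (Fin n)} (hK : K'.card ≤ D) {g : (Fin n → Option Bool) → A}
    (hg : ∀ u v, (∀ i ∈ K', u i = v i) → g u = g v) : Loc D g := by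
  classical
  refine ⟨fun K u => if K = K' then g u else 0, fun K u v huv => ?_, fun u => ?_⟩
  · by_cases h : K = K'
    · subst h
      simp only [if_true]
      exact hg u v huv
    · simp only [if_neg h]
  · rw [sum_ite_eq' _ _ (fun _ => g u), if_pos]
    simpa using hK

lemma loc_zero : Loc D (fun _ : Fin n → Option Bool => (0 : A)) :=
  loc_of_dep (K' := ∅) (by simp) (fun _ _ _ => rfl)

lemma Loc.add {Q Q' : (Fin n → Option Bool) → A} (hQ : Loc D Q) (hQ' : Loc D Q') :
    Loc D (fun u => Q u + Q' u) := by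
  obtain ⟨φ, h1, h2⟩ := hQ
  obtain ⟨φ', h3, h4⟩ := hQ'
  refine ⟨fun K u => φ K u + φ' K u, fun K u v huv => ?_, fun u => ?_⟩
  · beta_reduce
    rw [h1 K u v huv, h3 K u v huv]
  · beta_reduce
    rw [h2, h4, sum_add_distrib]

lemma loc_sum {ι : Type*} (s : Finset ι) {Q : ι → (Fin n → Option Bool) → A}
    (hQ : ∀ i ∈ s, Loc D (Q i)) : Loc D (fun u => ∑ i ∈ s, Q i u) := by
  classical
  induction s using Finset.induction_on with
  | empty => simpa using loc_zero
  | insert a s ha ih =>
    simp only [sum_insert ha]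
    exact (hQ a (mem_insert_self _ _)).add (ih fun i hi => hQ i (mem_insert_of_mem hi))

/-- the word with the letters `p` at the positions `t` -/
noncomputable def place {r : ℕ} (t : Fin r → Fin n) (p : Fin r → Option Bool) :
    Fin n → Option Bool := Function.extend t p (fun _ => none)

open Classical in
/-- Restriction of a sum of `(D + 1)`-local functions: the terms whose letters are all free, and a
sum of `D`-local functions. -/
lemma restr_top {φ : Finset (Fin n) → (Fin n → Option Bool) → A}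
    (hφ : ∀ K u v, (∀ i ∈ K, u i = v i) → φ K u = φ K v) {Q : (Fin n → Option Bool) → A}
    (hQ : ∀ u, Q u = ∑ K ∈ univ.filter (fun K : Finset (Fin n) => K.card ≤ D + 1), φ K u)
    {e : Fin h → Fin n} (he : StrictMono e) (y : Fin n → Bool) :
    ∃ Q' : (Fin h → Option Bool) → A, Loc D Q' ∧ ∀ v, Q (ext e v y) =
      ∑ k ∈ SM (D + 1) h, φ (univ.image (e ∘ k)) (place (e ∘ k) (v ∘ k)) + Q' v := by
  classical
  set T := (univ.filter fun K : Finset (Fin n) => K.card ≤ D + 1) with hT
  set I := (SM (D + 1) h).image (fun k : Fin (D + 1) → Fin h => univ.image (e ∘ k)) with hI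
  have hIT : I ⊆ T := by
    intro K hK
    rw [hI, mem_image] at hK
    obtain ⟨k, hk, rfl⟩ := hK
    rw [hT, mem_filter]
    refine ⟨mem_univ _, ?_⟩
    refine card_image_le.trans ?_
    simp
  refine ⟨fun v => ∑ K ∈ T \ I, φ K (ext e v y), ?_, fun v => ?_⟩
  · refine loc_sum _ fun K hK => ?_
    rw [mem_sdiff, hT, mem_filter] at hK
    obtain ⟨⟨-, hKc⟩, hKI⟩ := hK
    set K' : Finset (Fin h) := univ.filter fun j => e j ∈ K with hK'
    have hsub : K'.image e ⊆ K := by
      intro i hi
      rw [mem_image] at hi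
      obtain ⟨j, hj, rfl⟩ := hi
      exact (mem_filter.mp hj).2
    have hcard : (K'.image e).card = K'.card := card_image_of_injective _ he.injective
    have hle : K'.card ≤ D := by
      by_contra hcon
      push Not at hcon
      have h1 : K'.card ≤ K.card := by rw [← hcard]; exact card_le_card hsub
      have h2 : K'.card = D + 1 := by omega
      have h3 : K'.image e = K := eq_of_subset_of_card_le hsub (by rw [hcard]; omega)
      apply hKI
      rw [hI, mem_image]
      refine ⟨K'.orderEmbOfFin h2, ?_, ?_⟩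
      · rw [SM, mem_filter]
        exact ⟨mem_univ _, (K'.orderEmbOfFin h2).strictMono⟩
      · rw [← h3, ← image_image]
        congr 1
        ext i
        rw [mem_image]
        constructor
        · rintro ⟨a, -, rfl⟩
          exact orderEmbOfFin_mem K' h2 a
        · intro hi
          have h4 : i ∈ Set.range (K'.orderEmbOfFin h2) := by
            rw [range_orderEmbOfFin]; exact hi
          obtain ⟨a, ha⟩ := h4
          exact ⟨a, mem_univ _, ha⟩
    refine loc_of_dep (K' := K') hle fun u v huv => hφ K _ _ fun i hi => ?_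
    by_cases hex : ∃ j, e j = i
    · obtain ⟨j, rfl⟩ := hex
      rw [ext_apply he.injective, ext_apply he.injective]
      exact huv j (by rw [hK', mem_filter]; exact ⟨mem_univ _, hi⟩)
    · rw [ext_apply' _ _ hex, ext_apply' _ _ hex]
  · rw [hQ, ← sum_sdiff hIT, add_comm]
    congr 1
    rw [hI, sum_image]
    · refine sum_congr rfl fun k hk => hφ _ _ _ fun i hi => ?_
      rw [mem_image] at hi
      obtain ⟨a, -, rfl⟩ := hi
      rw [SM, mem_filter] at hk
      rw [place, (he.comp hk.2).injective.extend_apply]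
      exact ext_apply he.injective v y (k a)
    · intro k hk k' hk' hkk
      rw [SM, mem_coe, mem_filter] at hk hk'
      have h1 : Set.range (e ∘ k) = Set.range (e ∘ k') := by
        have h0 : ((univ.image (e ∘ k) : Finset (Fin n)) : Set (Fin n)) =
            ((univ.image (e ∘ k') : Finset (Fin n)) : Set (Fin n)) := by
          have h00 : univ.image (e ∘ k) = univ.image (e ∘ k') := hkk
          rw [h00]
        rwa [coe_image, coe_image, coe_univ, Set.image_univ, Set.image_univ] at h0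
      have h2 := ((he.comp hk.2).range_inj (he.comp hk'.2)).mp h1
      funext a
      exact he.injective (congrFun h2 a)

end loc

/-! ### averages over the other coordinates -/

section avg

variable {n h : ℕ}

/-- RESTRICT for edges, general form -/
lemma restrict_edges {c : ℝ} (E : (Fin n → Option Bool) → Prop) [DecidablePred E]
    (e : Fin h → Fin n) (he : Function.Injective e)
    (hge : ∀ y : Fin n → Bool, c * ((h : ℝ) * 2 ^ (h - 1)) ≤
      ((univ.filter fun v : Fin h → Option Bool => dim v = 1 ∧ E (ext e v y)).card : ℝ)) :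
    c * ((h : ℝ) * 2 ^ (n - 1)) ≤
      ∑ j : Fin h, ((univ.filter fun u : Fin n → Option Bool =>
        dim u = 1 ∧ u (e j) = none ∧ E u).card : ℝ) := by
  classical
  rcases Nat.eq_zero_or_pos h with h0 | hpos
  · subst h0
    simp
  have hn : 0 < n := (e ⟨0, hpos⟩).pos
  have h2 := sum_le_sum fun (y : Fin n → Bool) (_ : y ∈ univ) => hge y
  rw [sum_const, card_univ, Fintype.card_fun, Fintype.card_bool, Fintype.card_fin,
    nsmul_eq_mul] at h2
  have h3 := sum_card_ext he E 1
  rw [card_edges_range he E] at h3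
  have h4 : ∑ y : Fin n → Bool, ((univ.filter fun v : Fin h → Option Bool =>
      dim v = 1 ∧ E (ext e v y)).card : ℝ) = 2 ^ h * ∑ j : Fin h,
      ((univ.filter fun u : Fin n → Option Bool => dim u = 1 ∧ u (e j) = none ∧ E u).card : ℝ) := by
    exact_mod_cast h3
  rw [h4] at h2
  have h5 : (2 : ℝ) ^ n = 2 * 2 ^ (n - 1) := by
    rw [← pow_succ']
    congr 1
    omega
  have h6 : (2 : ℝ) ^ h = 2 * 2 ^ (h - 1) := by
    rw [← pow_succ']
    congr 1
    omega
  push_cast at h2
  have h7 : (0 : ℝ) < 2 ^ h := by positivity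
  refine le_of_mul_le_mul_left (le_trans (le_of_eq ?_) h2) h7
  rw [h5, h6]
  ring

/-- RESTRICT for vertices, general form -/
lemma restrict_vertices {c : ℝ} (E : (Fin n → Option Bool) → Prop) [DecidablePred E]
    (e : Fin h → Fin n) (he : Function.Injective e)
    (hge : ∀ y : Fin n → Bool, c * 2 ^ h ≤
      ((univ.filter fun v : Fin h → Option Bool => dim v = 0 ∧ E (ext e v y)).card : ℝ)) :
    c * 2 ^ n ≤ ((univ.filter fun u : Fin n → Option Bool => dim u = 0 ∧ E u).card : ℝ) := by
  classical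
  have h2 := sum_le_sum fun (y : Fin n → Bool) (_ : y ∈ univ) => hge y
  rw [sum_const, card_univ, Fintype.card_fun, Fintype.card_bool, Fintype.card_fin,
    nsmul_eq_mul] at h2
  have h3 := sum_card_ext he E 0
  have h4 : (univ.filter fun u : Fin n → Option Bool =>
      dim u = 0 ∧ (∀ i, (¬ ∃ j, e j = i) → u i ≠ none) ∧ E u) =
      univ.filter fun u : Fin n → Option Bool => dim u = 0 ∧ E u := by
    ext u
    simp only [mem_filter, mem_univ, true_and]
    constructor
    · rintro ⟨h5, -, h6⟩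
      exact ⟨h5, h6⟩
    · rintro ⟨h5, h6⟩
      refine ⟨h5, fun i _ hi => ?_, h6⟩
      have h7 : (univ.filter fun i => u i = none).card = 0 := h5
      rw [card_eq_zero] at h7
      have : i ∈ univ.filter fun i => u i = none := by simp [hi]
      rw [h7] at this
      simp at this
  rw [h4] at h3
  have h5 : ∑ y : Fin n → Bool, ((univ.filter fun v : Fin h → Option Bool =>
      dim v = 0 ∧ E (ext e v y)).card : ℝ) = 2 ^ h *
      ((univ.filter fun u : Fin n → Option Bool => dim u = 0 ∧ E u).card : ℝ) := by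
    exact_mod_cast h3
  rw [h5] at h2
  push_cast at h2
  have h7 : (0 : ℝ) < 2 ^ h := by positivity
  refine le_of_mul_le_mul_left (le_trans (le_of_eq ?_) h2) h7
  ring

end avg

end Pool.Agent.Lib.MP_53850c_co.PD
end

section
/-!
# One more degree
-/
set_option autoImplicit false

namespace Pool.Agent.Lib.MP_53850c_co.PD

open Finset Pool.Agent.Lib.MP_53850c_co.BW Pool.Agent.Lib.MP_53850c_co.LF

/-- Blocks: if every set of at least `R` directions contains `m ≥ 1` directions of total weight at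
least `c * m`, then the total weight of a set `X` is at least `c * (|X| - R)`. -/
lemma blocks {n m R : ℕ} (hm : 0 < m) (g : Fin n → ℝ) (hg : ∀ j, 0 ≤ g j) (c : ℝ) (hc : 0 ≤ c)
    (hb : ∀ X : Finset (Fin n), R ≤ X.card → ∃ T ⊆ X, T.card = m ∧ c * m ≤ ∑ j ∈ T, g j)
    (X : Finset (Fin n)) : c * ((X.card : ℝ) - R) ≤ ∑ j ∈ X, g j := by
  classical
  induction hX : X.card using Nat.strong_induction_on generalizing X with
  | _ N ih =>
    rcases lt_or_ge X.card R with hlt | hge
    · have h1 : (X.card : ℝ) - R ≤ 0 := by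
        have : (X.card : ℝ) ≤ R := by exact_mod_cast hlt.le
        linarith
      rw [← hX]
      exact (mul_nonpos_of_nonneg_of_nonpos hc h1).trans (sum_nonneg fun j _ => hg j)
    · obtain ⟨T, hT, hTm, hTs⟩ := hb X hge
      have h1 : (X \ T).card = X.card - m := by rw [card_sdiff_of_subset hT, hTm]
      have h2 : m ≤ X.card := by rw [← hTm]; exact card_le_card hT
      have h3 := ih (X \ T).card (by omega) (X \ T) rfl
      rw [h1, Nat.cast_sub h2] at h3
      rw [← sum_sdiff hT, ← hX]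
      have : c * ((X.card : ℝ) - R) = c * (((X.card : ℝ) - m) - R) + c * m := by ring
      rw [this]
      exact add_le_add h3 hTs

section step

variable {A : Type} [AddCommMonoid A] [Finite A] {D : ℕ}

open Classical in
/-- Inside every large set of letters there are `m` letters `e` such that, for all values `y` of the
other letters, the restriction is again a formula + sum of `D`-local functions. -/
theorem exists_block (A : Type) [AddCommMonoid A] [Finite A] (D : ℕ) (hHyp : SpecHyp)
    (hHom : SpecHom) (S : Type) :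
    ∃ (M : Type) (_ : Finite M), ∀ m, 0 < m → ∃ R : ℕ, ∀ (n k : ℕ) (Φ : Fm n S) (Q : (Fin n → Option Bool) → A)
      (Ψ : S → A → Prop) (X : Finset (Fin n)), (∀ j ∈ X, Φ.occ j ≤ k) → Loc (D + 1) Q →
      R ≤ X.card → ∃ e : Fin m → Fin n, StrictMono e ∧ (∀ j, e j ∈ X) ∧ ∀ y : Fin n → Bool,
        ∃ (Φ' : Fm m (S × M)) (Q' : (Fin m → Option Bool) → A) (Ψ' : S × M → A → Prop),
          (∀ j, Φ'.occ j ≤ k + 2) ∧ Loc D Q' ∧
          ∀ v, Ψ' (Φ'.eval v) (Q' v) ↔ Ψ (Φ.eval (ext e v y)) (Q (ext e v y)) := by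
  obtain ⟨M, hM, hMM⟩ := hHom A (D + 1)
  refine ⟨M, hM, fun m hm => ?_⟩
  obtain ⟨R, hR⟩ := hHyp ((Fin (D + 1) → Option Bool) → A) (D + 1) m
  refine ⟨R, fun n k Φ Q Ψ X hocc hQ hX => ?_⟩
  obtain ⟨φ, hφ, hQφ⟩ := hQ
  obtain ⟨T, c, hTX, hTm, hT⟩ := hR (Fin n)
    (fun t p => φ (univ.image t) (place t p)) X hX
  set e := T.orderEmbOfFin hTm with he
  refine ⟨e, e.strictMono, fun j => hTX (orderEmbOfFin_mem T hTm j), fun y => ?_⟩
  obtain ⟨Q', hQ', hQQ⟩ := restr_top hφ hQφ e.strictMono y
  obtain ⟨Φ₁, h1, h2⟩ := exists_restr e.injective hm y Φ k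
    (fun j => hocc _ (hTX (orderEmbOfFin_mem T hTm j)))
  obtain ⟨Φ₂, out, h3, h4⟩ := hMM m hm c
  obtain ⟨Φ₃, h5, h6⟩ := exists_pair Φ₁ Φ₂
  refine ⟨Φ₃, Q', fun p a => Ψ p.1 (out p.2 + a), fun j => ?_, hQ', fun v => ?_⟩
  · have := h1 j
    have := h3 j
    rw [h5]
    omega
  · rw [h6, ← h2, hQQ]
    show Ψ (Φ₁.eval v) (out (Φ₂.eval v) + Q' v) ↔ _
    rw [← h4]
    have h7 : ∑ k ∈ SM (D + 1) m, c (v ∘ k) =
        ∑ k ∈ SM (D + 1) m, φ (univ.image (e ∘ k)) (place (e ∘ k) (v ∘ k)) := by
      refine sum_congr rfl fun k hk => ?_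
      rw [SM, mem_filter] at hk
      have h8 := hT (e ∘ k) (e.strictMono.comp hk.2) (fun i => orderEmbOfFin_mem T hTm (k i))
      rw [← h8]
    rw [h7]

/-- **Edges**: one more degree. -/
theorem stepE (hHyp : SpecHyp) (hHom : SpecHom) (ih : BoundE A D) : BoundE A (D + 1) := by
  classical
  intro S hS k d ε hd hε
  obtain ⟨M, hM, hMM⟩ := exists_block A D hHyp hHom S
  obtain ⟨N₀, hN₀⟩ := ih (S × M) (k + 2) d (ε / 2) hd (by positivity)
  obtain ⟨R, hR⟩ := hMM (N₀ + 1) (Nat.succ_pos _)
  obtain ⟨N, hN⟩ := exists_nat_gt (2 * (R : ℝ) / ε)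
  refine ⟨N, fun n hn Φ Q Ψ hocc hQ hcov => ?_⟩
  rcases le_or_gt (1 / (B d : ℝ) - ε) 0 with hneg | hpos
  · refine le_trans ?_ (Nat.cast_nonneg _)
    have : (0 : ℝ) ≤ (n : ℝ) * 2 ^ (n - 1) := by positivity
    nlinarith
  have hB1 : 1 / (B d : ℝ) ≤ 1 := by
    rcases Nat.eq_zero_or_pos (B d) with h0 | h0
    · rw [h0]; norm_num
    · rw [div_le_one (by exact_mod_cast h0)]
      exact_mod_cast h0
  have h2pow : (0 : ℝ) < 2 ^ (n - 1) := by positivity
  set g : Fin n → ℝ := fun j => ((univ.filter fun u : Fin n → Option Bool =>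
        dim u = 1 ∧ u j = none ∧ Ψ (Φ.eval u) (Q u)).card : ℝ) with hg
  have hb := blocks (R := R) (Nat.succ_pos N₀) g (fun j => Nat.cast_nonneg _)
    ((1 / (B d : ℝ) - ε / 2) * 2 ^ (n - 1))
    (mul_nonneg (by linarith) h2pow.le) (fun X hX => by
      obtain ⟨e, he, heX, hy⟩ := hR n k Φ Q Ψ X (fun j _ => hocc j) hQ hX
      refine ⟨univ.image e, ?_, ?_, ?_⟩
      · intro i hi
        rw [mem_image] at hi
        obtain ⟨j, -, rfl⟩ := hi
        exact heX j
      · rw [card_image_of_injective _ he.injective, card_univ, Fintype.card_fin]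
      · rw [sum_image (fun _ _ _ _ h => he.injective h)]
        have h1 := restrict_edges (c := 1 / (B d : ℝ) - ε / 2)
          (fun u => Ψ (Φ.eval u) (Q u)) e he.injective (fun y => by
            obtain ⟨Φ', Q', Ψ', h2, h3, h4⟩ := hy y
            have h5 := hN₀ (N₀ + 1) (Nat.le_succ _) Φ' Q' Ψ' h2 h3 (by
              intro s hs
              obtain ⟨v, h6, h7, h8⟩ := covers_restrict he.injective
                (fun u => Ψ (Φ.eval u) (Q u)) hcov y s hs
              exact ⟨v, h6, h7, (h4 v).mpr h8⟩)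
            simp_rw [h4] at h5
            exact h5)
        refine le_trans (le_of_eq ?_) h1
        push_cast
        ring)
    univ
  rw [card_univ, Fintype.card_fin] at hb
  rw [LF.card_edges_eq_sum]
  push_cast
  refine le_trans ?_ hb
  have hnn : 2 * (R : ℝ) / ε < n := hN.trans_le (by exact_mod_cast hn)
  rw [div_lt_iff₀ hε] at hnn
  have hR0 : (0 : ℝ) ≤ R := Nat.cast_nonneg _
  have hkey : (1 / (B d : ℝ) - ε) * n ≤ (1 / (B d : ℝ) - ε / 2) * ((n : ℝ) - R) := by
    have h9 : (1 / (B d : ℝ) - ε / 2) * R ≤ 1 * R := by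
      apply mul_le_mul_of_nonneg_right _ hR0
      linarith
    nlinarith
  calc (1 / (B d : ℝ) - ε) * ((n : ℝ) * 2 ^ (n - 1))
      = ((1 / (B d : ℝ) - ε) * n) * 2 ^ (n - 1) := by ring
    _ ≤ ((1 / (B d : ℝ) - ε / 2) * ((n : ℝ) - R)) * 2 ^ (n - 1) := by gcongr
    _ = _ := by ring

/-- **Vertices**: one more degree. -/
theorem stepV (hHyp : SpecHyp) (hHom : SpecHom) (ih : BoundV A D) : BoundV A (D + 1) := by
  classical
  intro S hS k d ε hd hε
  obtain ⟨M, hM, hMM⟩ := exists_block A D hHyp hHom S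
  obtain ⟨N₀, hN₀⟩ := ih (S × M) (k + 2) d ε hd hε
  obtain ⟨R, hR⟩ := hMM (N₀ + 1) (Nat.succ_pos _)
  refine ⟨R, fun n hn Φ Q Ψ hocc hQ hcov => ?_⟩
  obtain ⟨e, he, -, hy⟩ := hR n k Φ Q Ψ univ (fun j _ => hocc j) hQ (by simpa using hn)
  refine restrict_vertices (fun u => Ψ (Φ.eval u) (Q u)) e he.injective (fun y => ?_)
  obtain ⟨Φ', Q', Ψ', h2, h3, h4⟩ := hy y
  have h5 := hN₀ (N₀ + 1) (Nat.le_succ _) Φ' Q' Ψ' h2 h3 (by
    intro s hs
    obtain ⟨v, h6, h7, h8⟩ := covers_restrict he.injective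
      (fun u => Ψ (Φ.eval u) (Q u)) hcov y s hs
    exact ⟨v, h6, h7, (h4 v).mpr h8⟩)
  simp_rw [h4] at h5
  exact h5

end step

end Pool.Agent.Lib.MP_53850c_co.PD
end
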