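import Pool.Agent.Lib.MP_53850c_co.PD.Defs
import Pool.Agent.Lib.MP_53850c_co.LF.Main0
import Pool.Agent.Lib.MP_53850c_co.PD.Step

section
/-!
# The base of the induction: no polynomial part
-/
namespace Pool.Agent.Lib.MP_53850c_co.PD

open Finset Pool.Agent.Lib.MP_53850c_co.BW Pool.Agent.Lib.MP_53850c_co.LF

lemma Loc.const {n : ℕ} {A : Type} [AddCommMonoid A] {Q : (Fin n → Option Bool) → A}
    (h : Loc 0 Q) : ∃ q : A, ∀ u, Q u = q := by
  obtain ⟨φ, h1, h2⟩ := h
  refine ⟨Q fun _ => none, fun u => ?_⟩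
  rw [h2, h2]
  refine sum_congr rfl fun K hK => h1 K _ _ fun i hi => ?_
  rw [mem_filter, Nat.le_zero, card_eq_zero] at hK
  rw [hK.2] at hi
  exact absurd hi (notMem_empty i)

lemma size_le {n k : ℕ} {S : Type} (Φ : Fm n S) (h : ∀ j, Φ.occ j ≤ k) : Φ.size ≤ k * n := by
  rw [Fm.size_eq]
  refine (sum_le_sum fun j _ => h j).trans ?_
  simp [mul_comm]

theorem boundE_zero (A : Type) [AddCommMonoid A] : BoundE A 0 := by
  classical
  intro S _ k d ε hd hε
  obtain ⟨N, hN⟩ := formula_edges S k d hd ε hε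
  refine ⟨N, fun n hn Φ Q Ψ hk hQ hcov => ?_⟩
  obtain ⟨q, hq⟩ := hQ.const
  simp only [hq] at hcov ⊢
  have h1 := hN n hn Φ (fun s => decide (Ψ s q)) (size_le Φ hk) (by
    intro s hs
    obtain ⟨u, hu1, hu2, hu3⟩ := hcov s hs
    exact ⟨u, hu1, hu2, by simpa using hu3⟩)
  simp only [decide_eq_true_eq] at h1
  convert h1 using 3

end Pool.Agent.Lib.MP_53850c_co.PD
end

section
/-!
# The base of the induction for vertices
-/
namespace Pool.Agent.Lib.MP_53850c_co.PD

open Finset Pool.Agent.Lib.MP_53850c_co.BW Pool.Agent.Lib.MP_53850c_co.LF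

theorem boundV_zero (A : Type) [AddCommMonoid A] : BoundV A 0 := by
  classical
  intro S _ k d ε hd hε
  obtain ⟨N, hN⟩ := formula_vertices S k d hd ε hε
  refine ⟨N, fun n hn Φ Q Ψ hk hQ hcov => ?_⟩
  obtain ⟨q, hq⟩ := hQ.const
  simp only [hq] at hcov ⊢
  have h1 := hN n hn Φ (fun s => decide (Ψ s q)) (size_le Φ hk) (by
    intro s hs
    obtain ⟨u, hu1, hu2, hu3⟩ := hcov s hs
    exact ⟨u, hu1, hu2, by simpa using hu3⟩)
  simp only [decide_eq_true_eq] at h1
  convert h1 using 3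

end Pool.Agent.Lib.MP_53850c_co.PD
end

section
/-!
# Linear-size formulas together with sums of local functions
-/
set_option autoImplicit false

namespace Pool.Agent.Lib.MP_53850c_co.PD

open Finset Pool.Agent.Lib.MP_53850c_co.BW Pool.Agent.Lib.MP_53850c_co.LF

theorem boundE (hHom : SpecHom) (A : Type) [AddCommMonoid A] [Finite A] (D : ℕ) : BoundE A D := by
  induction D with
  | zero => exact boundE_zero A
  | succ D ih => exact stepE specHyp hHom ih

theorem boundV (hHom : SpecHom) (A : Type) [AddCommMonoid A] [Finite A] (D : ℕ) : BoundV A D := by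
  induction D with
  | zero => exact boundV_zero A
  | succ D ih => exact stepV specHyp hHom ih

/-- the restriction of a sum of `D`-local functions -/
lemma Loc.restr {n h D : ℕ} {A : Type} [AddCommMonoid A] {Q : (Fin n → Option Bool) → A}
    (hQ : Loc D Q) {e : Fin h → Fin n} (he : Function.Injective e) (y : Fin n → Bool) :
    Loc D (fun v => Q (ext e v y)) := by
  classical
  obtain ⟨φ, hφ, hQφ⟩ := hQ
  simp_rw [hQφ]
  refine loc_sum _ fun K hK => ?_
  rw [mem_filter] at hK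
  refine loc_of_dep (K' := univ.filter fun j => e j ∈ K) ?_ fun u v huv => hφ K _ _ fun i hi => ?_
  · have hcard := card_image_of_injective (univ.filter fun j => e j ∈ K) he
    rw [← hcard]
    refine (card_le_card ?_).trans hK.2
    intro i hi
    rw [mem_image] at hi
    obtain ⟨j, hj, rfl⟩ := hi
    exact (mem_filter.mp hj).2
  · by_cases hex : ∃ j, e j = i
    · obtain ⟨j, rfl⟩ := hex
      rw [ext_apply he, ext_apply he]
      exact huv j (by rw [mem_filter]; exact ⟨mem_univ _, hi⟩)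
    · rw [ext_apply' _ _ hex, ext_apply' _ _ hex]

/-- the letters which are read at most `k'` times -/
lemma exists_seldom {S : Type} (k : ℕ) (ε : ℝ) (hε : 0 < ε) : ∃ k' : ℕ, ∀ (n : ℕ) (Φ : Fm n S),
    Φ.size ≤ k * n → ∃ (h : ℕ) (e : Fin h → Fin n), StrictMono e ∧ (∀ j, Φ.occ (e j) ≤ k') ∧
      (1 - ε) * n ≤ h := by
  classical
  obtain ⟨k', hk'⟩ := exists_nat_gt ((k : ℝ) / ε)
  refine ⟨k', fun n Φ hΦ => ?_⟩
  set X := univ.filter fun j : Fin n => Φ.occ j ≤ k' with hX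
  refine ⟨X.card, X.orderEmbOfFin rfl, (X.orderEmbOfFin rfl).strictMono, fun j => ?_, ?_⟩
  · exact (mem_filter.mp (orderEmbOfFin_mem X rfl j)).2
  · have h1 := card_often Φ k hΦ k'
    have h2 : X.card + (univ.filter fun j : Fin n => k' < Φ.occ j).card = n := by
      have h3 := card_filter_add_card_filter_not (s := (univ : Finset (Fin n)))
        (fun j => Φ.occ j ≤ k')
      rw [card_univ, Fintype.card_fin] at h3
      have h30 : (univ.filter fun j : Fin n => k' < Φ.occ j) =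
          univ.filter fun j : Fin n => ¬ Φ.occ j ≤ k' := by
        ext j
        simp
      rw [h30]
      exact h3
    set Y := (univ.filter fun j : Fin n => k' < Φ.occ j).card with hY
    have h4 : ((k' : ℝ) + 1) * Y ≤ k * n := by exact_mod_cast h1
    have h5 : (X.card : ℝ) + Y = n := by exact_mod_cast h2
    rw [div_lt_iff₀ hε] at hk'
    have hY0 : (0 : ℝ) ≤ Y := Nat.cast_nonneg _
    have hn0 : (0 : ℝ) ≤ n := Nat.cast_nonneg _
    have h6 : ((k' : ℝ) + 1) * Y ≤ ((k' : ℝ) + 1) * (ε * n) := by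
      refine h4.trans ?_
      nlinarith
    have h7 : (Y : ℝ) ≤ ε * n := le_of_mul_le_mul_left h6 (by positivity)
    linarith

open Classical in
/-- **Edges.** A formula with at most `k * n` leaves over a finite alphabet `S` and a sum of
`D`-local functions with values in a finite commutative monoid `A`. -/
theorem mixed_edges (hHom : SpecHom) (S A : Type) [Finite S] [AddCommMonoid A] [Finite A]
    (k D d : ℕ) (hd : 1 ≤ d) (ε : ℝ) (hε : 0 < ε) :
    ∃ n₀ : ℕ, ∀ n, n₀ ≤ n → ∀ (Φ : Fm n S) (Q : (Fin n → Option Bool) → A) (Ψ : S → A → Prop),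
      Φ.size ≤ k * n → Loc D Q →
      (∀ s : Fin n → Option Bool, dim s = d → ∃ u, dim u = 1 ∧ Sub u s ∧ Ψ (Φ.eval u) (Q u)) →
      (1 / (B d : ℝ) - ε) * ((n : ℝ) * 2 ^ (n - 1)) ≤
        ((univ.filter fun u : Fin n → Option Bool => dim u = 1 ∧ Ψ (Φ.eval u) (Q u)).card : ℝ) := by
  set ε' : ℝ := min ε 1 / 2 with hε'
  have h0 : 0 < ε' := by
    have : 0 < min ε 1 := lt_min hε one_pos
    positivity
  have h0' : ε' ≤ 1 / 2 := by
    have : min ε 1 ≤ 1 := min_le_right _ _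
    rw [hε']; linarith
  have h1 : 2 * ε' ≤ ε := by
    have : min ε 1 ≤ ε := min_le_left _ _
    rw [hε']; linarith
  obtain ⟨k', hk'⟩ := exists_seldom (S := S) k ε' h0
  obtain ⟨N₀, hN₀⟩ := boundE hHom A D S (k' + 1) d ε' hd h0
  refine ⟨2 * N₀ + 2, fun n hn Φ Q Ψ hsize hQ hcov => ?_⟩
  rcases le_or_gt (1 / (B d : ℝ) - ε) 0 with hneg | hpos
  · refine le_trans ?_ (Nat.cast_nonneg _)
    have : (0 : ℝ) ≤ (n : ℝ) * 2 ^ (n - 1) := by positivity
    nlinarith
  obtain ⟨h, e, he, hocc, hh⟩ := hk' n Φ hsize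
  have hn0 : (0 : ℝ) ≤ n := Nat.cast_nonneg _
  have hhn : ((n : ℝ)) / 2 ≤ h := by
    refine le_trans ?_ hh
    nlinarith
  have hhN : N₀ + 1 ≤ h := by
    have h2 : ((2 * N₀ + 2 : ℕ) : ℝ) ≤ n := by exact_mod_cast hn
    push_cast at h2
    have h3 : ((N₀ + 1 : ℕ) : ℝ) ≤ h := by
      push_cast
      linarith
    exact_mod_cast h3
  have hB1 : 1 / (B d : ℝ) ≤ 1 := by
    rcases Nat.eq_zero_or_pos (B d) with h0 | h0
    · rw [h0]; norm_num
    · rw [div_le_one (by exact_mod_cast h0)]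
      exact_mod_cast h0
  have key := restrict_edges (c := 1 / (B d : ℝ) - ε')
    (fun u => Ψ (Φ.eval u) (Q u)) e he.injective (fun y => by
      obtain ⟨Φ', h2, h3⟩ := exists_restr he.injective (by omega) y Φ k' hocc
      have h5 := hN₀ h (by omega) Φ' (fun v => Q (ext e v y)) Ψ h2 (hQ.restr he.injective y) (by
        intro s hs
        obtain ⟨v, h6, h7, h8⟩ := covers_restrict he.injective
          (fun u => Ψ (Φ.eval u) (Q u)) hcov y s hs
        exact ⟨v, h6, h7, by rw [h3]; exact h8⟩)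
      simp_rw [h3] at h5
      exact h5)
  rw [card_edges_eq_sum]
  push_cast
  have hsum : ∑ j : Fin h, ((univ.filter fun u : Fin n → Option Bool =>
        dim u = 1 ∧ u (e j) = none ∧ Ψ (Φ.eval u) (Q u)).card : ℝ) ≤
      ∑ q : Fin n, ((univ.filter fun u : Fin n → Option Bool =>
        dim u = 1 ∧ u q = none ∧ Ψ (Φ.eval u) (Q u)).card : ℝ) := by
    rw [← sum_image (s := univ) (g := e) (f := fun q : Fin n =>
      ((univ.filter fun u : Fin n → Option Bool =>
        dim u = 1 ∧ u q = none ∧ Ψ (Φ.eval u) (Q u)).card : ℝ)) (fun _ _ _ _ h => he.injective h)]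
    exact sum_le_sum_of_subset_of_nonneg (subset_univ _) fun q _ _ => Nat.cast_nonneg _
  refine le_trans ?_ (key.trans hsum)
  have h2pow : (0 : ℝ) < 2 ^ (n - 1) := by positivity
  have hc : 0 ≤ 1 / (B d : ℝ) - ε' := by linarith
  have hkey : (1 / (B d : ℝ) - ε) * n ≤ (1 / (B d : ℝ) - ε') * h := by
    have h9 : (1 / (B d : ℝ) - ε') * ((1 - ε') * n) ≤ (1 / (B d : ℝ) - ε') * h :=
      mul_le_mul_of_nonneg_left hh hc
    refine le_trans ?_ h9
    nlinarith [mul_nonneg h0.le hn0]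
  calc (1 / (B d : ℝ) - ε) * ((n : ℝ) * 2 ^ (n - 1))
      = ((1 / (B d : ℝ) - ε) * n) * 2 ^ (n - 1) := by ring
    _ ≤ ((1 / (B d : ℝ) - ε') * h) * 2 ^ (n - 1) := by gcongr
    _ = _ := by ring

open Classical in
/-- **Vertices.** -/
theorem mixed_vertices (hHom : SpecHom) (S A : Type) [Finite S] [AddCommMonoid A] [Finite A]
    (k D d : ℕ) (hd : 1 ≤ d) (ε : ℝ) (hε : 0 < ε) :
    ∃ n₀ : ℕ, ∀ n, n₀ ≤ n → ∀ (Φ : Fm n S) (Q : (Fin n → Option Bool) → A) (Ψ : S → A → Prop),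
      Φ.size ≤ k * n → Loc D Q →
      (∀ s : Fin n → Option Bool, dim s = d → ∃ u, dim u = 0 ∧ Sub u s ∧ Ψ (Φ.eval u) (Q u)) →
      (1 / ((d : ℝ) + 1) - ε) * 2 ^ n ≤
        ((univ.filter fun u : Fin n → Option Bool => dim u = 0 ∧ Ψ (Φ.eval u) (Q u)).card : ℝ) := by
  obtain ⟨k', hk'⟩ := exists_seldom (S := S) k (1 / 2) (by norm_num)
  obtain ⟨N₀, hN₀⟩ := boundV hHom A D S (k' + 1) d ε hd hε
  refine ⟨2 * N₀ + 2, fun n hn Φ Q Ψ hsize hQ hcov => ?_⟩
  obtain ⟨h, e, he, hocc, hh⟩ := hk' n Φ hsize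
  have hn0 : (0 : ℝ) ≤ n := Nat.cast_nonneg _
  have hhN : N₀ + 1 ≤ h := by
    have h2 : ((2 * N₀ + 2 : ℕ) : ℝ) ≤ n := by exact_mod_cast hn
    push_cast at h2
    have h3 : ((N₀ + 1 : ℕ) : ℝ) ≤ h := by
      push_cast
      linarith
    exact_mod_cast h3
  refine restrict_vertices (fun u => Ψ (Φ.eval u) (Q u)) e he.injective (fun y => ?_)
  obtain ⟨Φ', h2, h3⟩ := exists_restr he.injective (by omega) y Φ k' hocc
  have h5 := hN₀ h (by omega) Φ' (fun v => Q (ext e v y)) Ψ h2 (hQ.restr he.injective y) (by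
    intro s hs
    obtain ⟨v, h6, h7, h8⟩ := covers_restrict he.injective
      (fun u => Ψ (Φ.eval u) (Q u)) hcov y s hs
    exact ⟨v, h6, h7, by rw [h3]; exact h8⟩)
  simp_rw [h3] at h5
  exact h5

end Pool.Agent.Lib.MP_53850c_co.PD
end
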