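import Mathlib
import Pool.Agent.Lib.MP_53850c_co.PD.LowTools
import Pool.Agent.Lib.MP_53850c_co.PD.Low

section
/-!
# Averaging over all maps
-/
set_option autoImplicit false

namespace Pool.Agent.Lib.MP_53850c_co.PD

open Finset

/-- the sum over all maps of a function of the values at `r` fixed arguments -/
lemma sum_comp {α : Type*} [Fintype α] {r h : ℕ} (ι : Fin r → Fin h) (hι : Function.Injective ι)
    (g : (Fin r → α) → ℝ) :
    ∑ e : Fin h → α, g (e ∘ ι) = (Fintype.card α : ℝ) ^ (h - r) * ∑ t : Fin r → α, g t := by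
  classical
  let E1 : (Fin h → α) ≃ ({x // x ∈ Set.range ι} → α) × ({x // x ∉ Set.range ι} → α) :=
    Equiv.piEquivPiSubtypeProd (fun x => x ∈ Set.range ι) (fun _ => α)
  let E2 : Fin r ≃ {x // x ∈ Set.range ι} := Equiv.ofInjective ι hι
  have hcard : Fintype.card {x // x ∉ Set.range ι} = h - r := by
    rw [Fintype.card_subtype_compl, Fintype.card_fin]
    congr 1
    rw [← Fintype.card_congr E2, Fintype.card_fin]
  have h1 : ∑ e : Fin h → α, g (e ∘ ι) =
      ∑ p : ({x // x ∈ Set.range ι} → α) × ({x // x ∉ Set.range ι} → α), g (p.1 ∘ E2) := by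
    refine Fintype.sum_equiv E1 _ _ (fun e => ?_)
    rfl
  rw [h1, Fintype.sum_prod_type]
  simp only [sum_const, card_univ, Fintype.card_fun, hcard, nsmul_eq_mul]
  rw [← mul_sum]
  push_cast
  congr 1
  refine Fintype.sum_equiv (Equiv.arrowCongr E2.symm (Equiv.refl α)) _ _ (fun t => ?_)
  rfl

/-- If the averages of the costs `g i` over all tuples add up to less than `1`, then some map `e` has
total cost less than `1`. -/
theorem exists_map_cost {α I : Type*} [Fintype α] [Nonempty α] (s : Finset I) {h : ℕ} (r : I → ℕ)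
    (ι : (i : I) → Fin (r i) → Fin h) (hι : ∀ i ∈ s, Function.Injective (ι i))
    (g : (i : I) → (Fin (r i) → α) → ℝ) (κ : I → ℝ)
    (hg : ∀ i ∈ s, ∑ t, g i t ≤ κ i * (Fintype.card α : ℝ) ^ (r i)) (hκ : ∑ i ∈ s, κ i < 1) :
    ∃ e : Fin h → α, ∑ i ∈ s, g i (e ∘ ι i) < 1 := by
  classical
  by_contra hcon
  push Not at hcon
  have hα : (0 : ℝ) < Fintype.card α := by exact_mod_cast Fintype.card_pos
  have h1 : ∑ e : Fin h → α, (1 : ℝ) ≤ ∑ e : Fin h → α, ∑ i ∈ s, g i (e ∘ ι i) :=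
    sum_le_sum fun e _ => hcon e
  rw [sum_const, card_univ, Fintype.card_fun, Fintype.card_fin, nsmul_eq_mul, mul_one,
    sum_comm] at h1
  push_cast at h1
  have h2 : ∑ i ∈ s, ∑ e : Fin h → α, g i (e ∘ ι i) ≤
      ∑ i ∈ s, κ i * (Fintype.card α : ℝ) ^ h := by
    refine sum_le_sum fun i hi => ?_
    have hr : r i ≤ h := by
      have := Fintype.card_le_of_injective _ (hι i hi)
      simpa using this
    rw [sum_comp (ι i) (hι i hi)]
    have h3 := mul_le_mul_of_nonneg_left (hg i hi)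
      (show (0 : ℝ) ≤ (Fintype.card α : ℝ) ^ (h - r i) by positivity)
    refine h3.trans (le_of_eq ?_)
    have h4 : (Fintype.card α : ℝ) ^ h =
        (Fintype.card α : ℝ) ^ (h - r i) * (Fintype.card α : ℝ) ^ (r i) := by
      rw [← pow_add]
      congr 1
      omega
    rw [h4]
    ring
  rw [← sum_mul] at h2
  have h3 := h1.trans h2
  have h4 : (0 : ℝ) < (Fintype.card α : ℝ) ^ h := by positivity
  nlinarith

end Pool.Agent.Lib.MP_53850c_co.PD
end

section
/-!
# Selection of a small cube on which a function of low sensitivity is constant and which avoids a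
sparse set of faces, for most values of the other coordinates
-/
set_option autoImplicit false

namespace Pool.Agent.Lib.MP_53850c_co.PD

open Finset Pool.Agent.Lib.MP_53850c_co.BW Pool.Agent.Lib.MP_53850c_co.LF

section sel

variable {n h : ℕ}

/-- the tuples which enumerate the stars of `u` -/
lemma card_tuples (u : Fin n → Option Bool) {r : ℕ} (hr : dim u = r) :
    (univ.filter fun t : Fin r → Fin n => ∀ i, u i = none ↔ ∃ a, t a = i).card ≤ r ^ r := by
  classical
  set Z := univ.filter fun i => u i = none with hZ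
  have hZc : Z.card = r := hr
  have h1 : (univ.filter fun t : Fin r → Fin n => ∀ i, u i = none ↔ ∃ a, t a = i) ⊆
      Fintype.piFinset fun _ : Fin r => Z := by
    intro t ht
    rw [mem_filter] at ht
    rw [Fintype.mem_piFinset]
    intro a
    rw [hZ, mem_filter]
    exact ⟨mem_univ _, (ht.2 _).mpr ⟨a, rfl⟩⟩
  refine (card_le_card h1).trans ?_
  rw [Fintype.card_piFinset]
  simp [hZc]

lemma exists_enum {e : Fin h → Fin n} (he : Function.Injective e) {u : Fin n → Option Bool}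
    (hu : ∀ i, (¬ ∃ j, e j = i) → u i ≠ none) {r : ℕ} (hr : dim u = r) :
    ∃ c : Fin r → Fin h, Function.Injective c ∧ ∀ i, u i = none ↔ ∃ a, e (c a) = i := by
  classical
  set Z := univ.filter fun j : Fin h => u (e j) = none with hZ
  have h1 : (univ.filter fun i => u i = none) = Z.map ⟨e, he⟩ := by
    ext i
    simp only [hZ, mem_filter, mem_univ, true_and, mem_map, Function.Embedding.coeFn_mk]
    constructor
    · intro hi
      by_cases hex : ∃ j, e j = i
      · obtain ⟨j, rfl⟩ := hex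
        exact ⟨j, hi, rfl⟩
      · exact absurd hi (hu i hex)
    · rintro ⟨j, hj, rfl⟩
      exact hj
  have hZc : Z.card = r := by
    rw [← hr, dim, h1, card_map]
  refine ⟨fun a => Z.orderEmbOfFin hZc a, (Z.orderEmbOfFin hZc).injective, fun i => ?_⟩
  constructor
  · intro hi
    have h2 : i ∈ univ.filter fun i => u i = none := by simp [hi]
    rw [h1, mem_map] at h2
    obtain ⟨j, hj, rfl⟩ := h2
    have h3 : j ∈ Set.range (Z.orderEmbOfFin hZc) := by
      rw [range_orderEmbOfFin]; exact hj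
    obtain ⟨a, rfl⟩ := h3
    exact ⟨a, rfl⟩
  · rintro ⟨a, rfl⟩
    have h2 : Z.orderEmbOfFin hZc a ∈ Z := orderEmbOfFin_mem Z hZc a
    exact (mem_filter.mp h2).2

open Classical in
/-- the number of faces `u ∈ U` of dimension `r` whose stars are the entries of `t` -/
noncomputable def fc (U : (Fin n → Option Bool) → Prop) {r : ℕ} (t : Fin r → Fin n) : ℕ :=
  (univ.filter fun u : Fin n → Option Bool => dim u = r ∧ (∀ i, u i = none ↔ ∃ a, t a = i) ∧
    U u).card

lemma fc_eq_zero {U : (Fin n → Option Bool) → Prop} {r : ℕ} {t : Fin r → Fin n}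
    (h : ∀ u, (∀ i, u i = none ↔ ∃ a, t a = i) → ¬ U u) : fc U t = 0 := by
  classical
  unfold fc
  rw [card_eq_zero, filter_eq_empty_iff]
  rintro u _ ⟨_, h4, h5⟩
  exact h u h4 h5

open Classical in
lemma sum_fc (U : (Fin n → Option Bool) → Prop) (r : ℕ) :
    ∑ t : Fin r → Fin n, fc U t ≤
      r ^ r * (univ.filter fun u : Fin n → Option Bool => dim u = r ∧ U u).card := by
  have h1 : ∑ t : Fin r → Fin n, fc U t =
      ∑ u ∈ univ.filter (fun u : Fin n → Option Bool => dim u = r ∧ U u),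
        (univ.filter fun t : Fin r → Fin n => ∀ i, u i = none ↔ ∃ a, t a = i).card := by
    simp only [fc, card_filter]
    rw [sum_comm, sum_filter]
    refine sum_congr rfl fun u _ => ?_
    by_cases hu : dim u = r ∧ U u
    · rw [if_pos hu]
      refine sum_congr rfl fun t _ => ?_
      by_cases ht : ∀ i, u i = none ↔ ∃ a, t a = i
      · rw [if_pos ⟨hu.1, ht, hu.2⟩, if_pos ht]
      · rw [if_neg (fun h => ht h.2.1), if_neg ht]
    · rw [if_neg hu]
      refine sum_eq_zero fun t _ => if_neg fun h => hu ⟨h.1, h.2.2⟩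
  rw [h1]
  refine (sum_le_sum fun u hu => card_tuples u (mem_filter.mp hu).2.1).trans ?_
  rw [sum_const, smul_eq_mul, mul_comm]

open Classical in
/-- the faces in `U` with all stars in the image of `e` -/
lemma card_le_sum_fc (U : (Fin n → Option Bool) → Prop) {e : Fin h → Fin n}
    (he : Function.Injective e) (r : ℕ) :
    (univ.filter fun u : Fin n → Option Bool =>
      dim u = r ∧ (∀ i, (¬ ∃ j, e j = i) → u i ≠ none) ∧ U u).card ≤
    ∑ c ∈ univ.filter (fun c : Fin r → Fin h => Function.Injective c), fc U (e ∘ c) := by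
  have h1 : (univ.filter fun u : Fin n → Option Bool =>
      dim u = r ∧ (∀ i, (¬ ∃ j, e j = i) → u i ≠ none) ∧ U u) ⊆
      (univ.filter (fun c : Fin r → Fin h => Function.Injective c)).biUnion fun c =>
        univ.filter fun u : Fin n → Option Bool => dim u = r ∧
          (∀ i, u i = none ↔ ∃ a, (e ∘ c) a = i) ∧ U u := by
    intro u hu
    simp only [mem_filter, mem_univ, true_and] at hu
    obtain ⟨c, hc, hcu⟩ := exists_enum he hu.2.1 hu.1
    rw [mem_biUnion]
    refine ⟨c, by simpa using hc, ?_⟩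
    simp only [mem_filter, mem_univ, true_and]
    exact ⟨hu.1, hcu, hu.2.2⟩
  exact (card_le_card h1).trans card_biUnion_le

/-- costs of three kinds: pairs, a point together with an `l`-tuple, and `d`-tuples -/
lemma exists_map3 {α : Type*} [Fintype α] [Nonempty α] {l d : ℕ} (g₁ : (Fin 2 → α) → ℝ)
    (g₂ : (Fin (l + 1) → α) → ℝ) (g₃ : (Fin d → α) → ℝ) (κ₁ κ₂ κ₃ : ℝ)
    (hκ₁ : 0 ≤ κ₁) (hκ₂ : 0 ≤ κ₂) (hκ₃ : 0 ≤ κ₃)
    (h₁ : ∑ t, g₁ t ≤ κ₁ * (Fintype.card α : ℝ) ^ 2)
    (h₂ : ∑ t, g₂ t ≤ κ₂ * (Fintype.card α : ℝ) ^ (l + 1))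
    (h₃ : ∑ t, g₃ t ≤ κ₃ * (Fintype.card α : ℝ) ^ d)
    (hsum : κ₁ * (h : ℝ) ^ 2 + κ₂ * (h : ℝ) ^ (l + 1) + κ₃ * (h : ℝ) ^ d < 1)
    (p₁ : ∀ t, 0 ≤ g₁ t) (p₂ : ∀ t, 0 ≤ g₂ t) (p₃ : ∀ t, 0 ≤ g₃ t) :
    ∃ e : Fin h → α, (∀ c : Fin 2 → Fin h, Function.Injective c → g₁ (e ∘ c) < 1) ∧
      (∑ c ∈ univ.filter (fun c : Fin (l + 1) → Fin h => Function.Injective c), g₂ (e ∘ c) < 1) ∧
      (∑ c ∈ univ.filter (fun c : Fin d → Fin h => Function.Injective c), g₃ (e ∘ c) < 1) := by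
  classical
  set s₁ := univ.filter (fun c : Fin 2 → Fin h => Function.Injective c) with hs₁
  set s₂ := univ.filter (fun c : Fin (l + 1) → Fin h => Function.Injective c) with hs₂
  set s₃ := univ.filter (fun c : Fin d → Fin h => Function.Injective c) with hs₃
  let I := (Fin 2 → Fin h) ⊕ ((Fin (l + 1) → Fin h) ⊕ (Fin d → Fin h))
  let s : Finset I := s₁.disjSum (s₂.disjSum s₃)
  let r : I → ℕ := fun i => match i with
    | Sum.inl _ => 2
    | Sum.inr (Sum.inl _) => l + 1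
    | Sum.inr (Sum.inr _) => d
  let ι : (i : I) → Fin (r i) → Fin h := fun i => match i with
    | Sum.inl c => c
    | Sum.inr (Sum.inl c) => c
    | Sum.inr (Sum.inr c) => c
  let g : (i : I) → (Fin (r i) → α) → ℝ := fun i => match i with
    | Sum.inl _ => g₁
    | Sum.inr (Sum.inl _) => g₂
    | Sum.inr (Sum.inr _) => g₃
  let κ : I → ℝ := fun i => match i with
    | Sum.inl _ => κ₁
    | Sum.inr (Sum.inl _) => κ₂
    | Sum.inr (Sum.inr _) => κ₃
  have hcard : ∀ (q : ℕ), ((univ.filter (fun c : Fin q → Fin h => Function.Injective c)).card : ℝ)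
      ≤ (h : ℝ) ^ q := by
    intro q
    have h4 := card_le_univ (univ.filter (fun c : Fin q → Fin h => Function.Injective c))
    rw [Fintype.card_fun, Fintype.card_fin, Fintype.card_fin] at h4
    exact_mod_cast h4
  obtain ⟨e, he⟩ := exists_map_cost (α := α) s r ι (by
      intro i hi
      rcases i with c | c | c
      · exact (mem_filter.mp (inl_mem_disjSum.mp hi)).2
      · exact (mem_filter.mp (inl_mem_disjSum.mp (inr_mem_disjSum.mp hi))).2
      · exact (mem_filter.mp (inr_mem_disjSum.mp (inr_mem_disjSum.mp hi))).2) g κ (by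
      intro i _
      rcases i with c | c | c
      · exact h₁
      · exact h₂
      · exact h₃) (by
      rw [sum_disjSum, sum_disjSum]
      simp only [κ, sum_const, nsmul_eq_mul]
      have e1 := mul_le_mul_of_nonneg_right (hcard 2) hκ₁
      have e2 := mul_le_mul_of_nonneg_right (hcard (l + 1)) hκ₂
      have e3 := mul_le_mul_of_nonneg_right (hcard d) hκ₃
      rw [← hs₁] at e1
      rw [← hs₂] at e2
      rw [← hs₃] at e3
      linarith)
  rw [sum_disjSum, sum_disjSum] at he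
  have he' : ∑ c ∈ s₁, g₁ (e ∘ c) + (∑ c ∈ s₂, g₂ (e ∘ c) + ∑ c ∈ s₃, g₃ (e ∘ c)) < 1 := he
  have q₁ : 0 ≤ ∑ c ∈ s₁, g₁ (e ∘ c) := sum_nonneg fun c _ => p₁ _
  have q₂ : 0 ≤ ∑ c ∈ s₂, g₂ (e ∘ c) := sum_nonneg fun c _ => p₂ _
  have q₃ : 0 ≤ ∑ c ∈ s₃, g₃ (e ∘ c) := sum_nonneg fun c _ => p₃ _
  refine ⟨e, fun c hc => ?_, by linarith, by linarith⟩
  have h4 : g₁ (e ∘ c) ≤ ∑ c ∈ s₁, g₁ (e ∘ c) :=
    single_le_sum (f := fun c => g₁ (e ∘ c)) (fun c _ => p₁ _) (by simpa [hs₁] using hc)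
  linarith

lemma sum_subtype_le (X : Finset (Fin n)) {r : ℕ} (G : (Fin r → Fin n) → ℝ) (hG : ∀ t, 0 ≤ G t) :
    ∑ t : Fin r → X, G (fun a => (t a : Fin n)) ≤ ∑ t, G t := by
  classical
  have hinj : Function.Injective (fun (t : Fin r → X) (a : Fin r) => (t a : Fin n)) := by
    intro t t' h
    funext a
    exact Subtype.ext (congrFun h a)
  have h1 : ∑ t : Fin r → X, G (fun a => (t a : Fin n)) =
      ∑ t ∈ (univ : Finset (Fin r → X)).map ⟨_, hinj⟩, G t := by
    rw [sum_map]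
    rfl
  rw [h1]
  exact sum_le_sum_of_subset_of_nonneg (subset_univ _) fun t _ _ => hG t

lemma sum_cons {α : Type*} [Fintype α] {l : ℕ} (G : α → (Fin l → α) → ℝ) :
    ∑ t : Fin (l + 1) → α, G (t 0) (fun a => t a.succ) = ∑ j, ∑ t : Fin l → α, G j t := by
  rw [← Fintype.sum_prod_type (f := fun p : α × (Fin l → α) => G p.1 p.2)]
  symm
  refine Fintype.sum_equiv (Fin.consEquiv (fun _ : Fin (l + 1) => α)) _ _ (fun p => ?_)
  rfl

/-- the sensitive pairs (face with all stars in the image of `e`, letter in the image of `e`) -/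
lemma sum_sens_le {T : Type*} (F : (Fin n → Option Bool) → T) {e : Fin h → Fin n}
    (he : Function.Injective e) (l : ℕ) :
    ∑ b : Fin h, ((open Classical in univ.filter fun u : Fin n → Option Bool =>
      dim u = l ∧ (∀ i, (¬ ∃ j, e j = i) → u i ≠ none) ∧ F (flip u (e b)) ≠ F u).card : ℝ) ≤
    ∑ c ∈ (open Classical in univ.filter (fun c : Fin (l + 1) → Fin h => Function.Injective c)),
      (fc (fun u => F (flip u (e (c 0))) ≠ F u) (fun a => e (c a.succ)) : ℝ) := by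
  classical
  have h1 : ∀ b : Fin h, ((univ.filter fun u : Fin n → Option Bool =>
      dim u = l ∧ (∀ i, (¬ ∃ j, e j = i) → u i ≠ none) ∧ F (flip u (e b)) ≠ F u).card : ℝ) ≤
      ∑ c : Fin l → Fin h, (if Function.Injective (Fin.cons b c : Fin (l + 1) → Fin h) then
        (fc (fun u => F (flip u (e b)) ≠ F u) (e ∘ c) : ℝ) else 0) := by
    intro b
    have h2 : ((univ.filter fun u : Fin n → Option Bool =>
      dim u = l ∧ (∀ i, (¬ ∃ j, e j = i) → u i ≠ none) ∧ F (flip u (e b)) ≠ F u).card : ℝ) ≤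
      ∑ c ∈ univ.filter (fun c : Fin l → Fin h => Function.Injective c),
        (fc (fun u => F (flip u (e b)) ≠ F u) (e ∘ c) : ℝ) := by
      exact_mod_cast card_le_sum_fc (fun u => F (flip u (e b)) ≠ F u) he l
    refine h2.trans ?_
    rw [sum_filter]
    refine sum_le_sum fun c _ => ?_
    by_cases hc : Function.Injective c
    · rw [if_pos hc]
      by_cases hb : ∃ a, c a = b
      · obtain ⟨a, rfl⟩ := hb
        have h3 : fc (fun u => F (flip u (e (c a))) ≠ F u) (e ∘ c) = 0 := by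
          refine fc_eq_zero fun u h4 h5 => h5 ?_
          have h6 : u (e (c a)) = none := (h4 _).mpr ⟨a, rfl⟩
          rw [flip_star h6]
        rw [h3]
        push_cast
        split_ifs <;> simp
      · rw [if_pos]
        rw [Fin.cons_injective_iff]
        exact ⟨fun ⟨a, ha⟩ => hb ⟨a, ha⟩, hc⟩
    · rw [if_neg hc]
      split_ifs
      · positivity
      · exact le_rfl
  refine (sum_le_sum fun b _ => h1 b).trans (le_of_eq ?_)
  rw [sum_filter]
  have h2 := sum_cons (α := Fin h) (l := l) (fun b c =>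
    (if Function.Injective (Fin.cons b c : Fin (l + 1) → Fin h) then
        (fc (fun u => F (flip u (e b)) ≠ F u) (e ∘ c) : ℝ) else 0))
  rw [← h2]
  refine sum_congr rfl fun c _ => ?_
  have h3 : (Fin.cons (c 0) (fun a => c a.succ) : Fin (l + 1) → Fin h) = c := Fin.cons_self_tail c
  rw [h3]
  rfl

lemma sum_fc_sens {T : Type*} (F : (Fin n → Option Bool) → T) (l : ℕ) :
    ∑ j, ∑ t : Fin l → Fin n, fc (fun u => F (flip u j) ≠ F u) t ≤ l ^ l * sens F l := by
  classical
  rw [sens, mul_sum]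
  refine sum_le_sum fun j _ => (sum_fc (fun u => F (flip u j) ≠ F u) l).trans (le_of_eq ?_)
  congr 2
  ext u
  simp

/-- the selection with costs on tuples of letters -/
lemma exists_map4 (X : Finset (Fin n)) (hX : X.Nonempty) {l d : ℕ}
    (g₂ : (Fin (l + 1) → Fin n) → ℝ) (g₃ : (Fin d → Fin n) → ℝ) (κ₂ κ₃ : ℝ)
    (hκ₂ : 0 ≤ κ₂) (hκ₃ : 0 ≤ κ₃)
    (h₂ : ∑ t, g₂ t ≤ κ₂ * (X.card : ℝ) ^ (l + 1))
    (h₃ : ∑ t, g₃ t ≤ κ₃ * (X.card : ℝ) ^ d)
    (hsum : 1 / (X.card : ℝ) * (h : ℝ) ^ 2 + κ₂ * (h : ℝ) ^ (l + 1) + κ₃ * (h : ℝ) ^ d < 1)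
    (p₂ : ∀ t, 0 ≤ g₂ t) (p₃ : ∀ t, 0 ≤ g₃ t) :
    ∃ e : Fin h → Fin n, Function.Injective e ∧ (∀ a, e a ∈ X) ∧
      (∑ c ∈ (open Classical in univ.filter (fun c : Fin (l + 1) → Fin h =>
        Function.Injective c)), g₂ (e ∘ c) < 1) ∧
      (∑ c ∈ (open Classical in univ.filter (fun c : Fin d → Fin h =>
        Function.Injective c)), g₃ (e ∘ c) < 1) := by
  classical
  haveI : Nonempty X := hX.to_subtype
  have hcX : Fintype.card X = X.card := Fintype.card_coe X
  have hX0 : (0 : ℝ) < X.card := by exact_mod_cast card_pos.mpr hX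
  obtain ⟨e, he₁, he₂, he₃⟩ := exists_map3 (α := X) (h := h) (l := l) (d := d)
    (fun t => if t 0 = t 1 then 1 else 0)
    (fun t => g₂ (fun a => (t a : Fin n))) (fun t => g₃ (fun a => (t a : Fin n)))
    (1 / (X.card : ℝ)) κ₂ κ₃ (by positivity) hκ₂ hκ₃
    (by
      have h1 : ∑ t : Fin 2 → X, (if t 0 = t 1 then (1 : ℝ) else 0) =
          ∑ p : X × X, (if p.1 = p.2 then (1 : ℝ) else 0) :=
        Fintype.sum_equiv (finTwoArrowEquiv X) _ _ (fun t => rfl)
      rw [h1, Fintype.sum_prod_type]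
      simp only [sum_ite_eq, mem_univ, if_true, sum_const, card_univ, nsmul_eq_mul, mul_one]
      rw [hcX]
      refine le_of_eq ?_
      field_simp)
    (by rw [hcX]; exact (sum_subtype_le X g₂ p₂).trans h₂)
    (by rw [hcX]; exact (sum_subtype_le X g₃ p₃).trans h₃)
    hsum
    (fun t => by split_ifs <;> norm_num) (fun t => p₂ _) (fun t => p₃ _)
  refine ⟨fun a => (e a : Fin n), fun a b hab => ?_, fun a => (e a).2, he₂, he₃⟩
  by_contra hne
  have h1 := he₁ ![a, b] (by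
    intro i j hij
    fin_cases i <;> fin_cases j <;> simp_all)
  have h2 : e a = e b := Subtype.ext hab
  simp [h2] at h1

open Classical in
/-- the exceptional values of the other coordinates, for the faces in `U` -/
noncomputable def bad₂ (U : (Fin n → Option Bool) → Prop) (e : Fin h → Fin n) (d : ℕ) :
    Finset (Fin n → Bool) :=
  univ.filter fun y => ∃ s : Fin h → Option Bool, dim s = d ∧ U (ext e s y)

lemma card_bad₂ (U : (Fin n → Option Bool) → Prop) {e : Fin h → Fin n}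
    (he : Function.Injective e) (d : ℕ) : (bad₂ U e d).card ≤ 2 ^ h *
      ∑ c ∈ (open Classical in univ.filter (fun c : Fin d → Fin h => Function.Injective c)),
        fc U (e ∘ c) := by
  classical
  refine le_trans ?_ (Nat.mul_le_mul_left _ (card_le_sum_fc U he d))
  rw [← sum_card_ext he U d]
  have h2 : (bad₂ U e d).card = ∑ y : Fin n → Bool, (if y ∈ bad₂ U e d then 1 else 0) := by
    rw [← card_filter]
    congr 1
    ext y
    simp
  rw [h2]
  refine sum_le_sum fun y _ => ?_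
  split_ifs with hy
  · simp only [bad₂, mem_filter, mem_univ, true_and] at hy
    obtain ⟨s, hs, hsU⟩ := hy
    exact card_pos.mpr ⟨s, by simp only [mem_filter, mem_univ, true_and]; exact ⟨hs, hsU⟩⟩
  · exact Nat.zero_le _

/-- from the total cost to the number of exceptional values -/
lemma bad_le {a : ℝ} {θ' : ℝ} {m : ℕ} {s : ℝ} (hθ' : 0 < θ') (h1 : a ≤ 2 ^ h * s)
    (h2 : s / (θ' * 2 ^ m) < 1) : a ≤ 2 ^ h * θ' * 2 ^ m := by
  have h2h : (0 : ℝ) < 2 ^ h := by positivity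
  rw [div_lt_one (by positivity)] at h2
  refine h1.trans ?_
  rw [mul_assoc]
  exact mul_le_mul_of_nonneg_left h2.le h2h.le

lemma cost_le {S A κ δ θ' η N X M : ℝ} {r : ℕ} (hθ' : 0 < θ') (hη : 0 < η) (hM : 0 < M) (hA : 0 ≤ A)
    (hδ : 0 ≤ δ) (hN : 0 ≤ N) (hS : S ≤ A * (δ * (N ^ r * M))) (hX : η * N ≤ X)
    (hκ : κ = A * δ / (θ' * η ^ r)) : S / (θ' * M) ≤ κ * X ^ r := by
  have h4 : N ^ r ≤ X ^ r / η ^ r := by
    rw [le_div_iff₀ (by positivity), ← mul_pow, mul_comm]
    exact pow_le_pow_left₀ (by positivity) hX _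
  rw [div_le_iff₀ (by positivity)]
  refine hS.trans ?_
  have h5 : A * (δ * (N ^ r * M)) ≤ A * (δ * ((X ^ r / η ^ r) * M)) := by gcongr
  refine h5.trans (le_of_eq ?_)
  rw [hκ]
  field_simp

lemma kappa_lt {A δ θ' η H : ℝ} {r : ℕ} (hθ' : 0 < θ') (hη : 0 < η) (hA : 0 ≤ A) (hH : 0 ≤ H)
    (hδ : δ = θ' * η ^ r / (4 * (A * H + 1))) : A * δ / (θ' * η ^ r) * H < 1 / 4 := by
  have hAH : 0 ≤ A * H := mul_nonneg hA hH
  have : A * δ / (θ' * η ^ r) * H = (A * H) / (4 * (A * H + 1)) := by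
    rw [hδ]
    field_simp
  rw [this, div_lt_iff₀ (by positivity)]
  linarith

open Classical in
/-- SELECTION. -/
theorem exists_sel (l d h : ℕ) {η θ : ℝ} (hη : 0 < η) (hθ : 0 < θ) : ∃ δ : ℝ, 0 < δ ∧ ∃ n₀ : ℕ,
    ∀ n, n₀ ≤ n → ∀ (T : Type) (F : (Fin n → Option Bool) → T)
      (U : (Fin n → Option Bool) → Prop) (X : Finset (Fin n)),
      (sens F l : ℝ) ≤ δ * ((n : ℝ) ^ (l + 1) * 2 ^ n) →
      ((univ.filter fun u : Fin n → Option Bool => dim u = d ∧ U u).card : ℝ) ≤
        δ * ((n : ℝ) ^ d * 2 ^ n) → η * n ≤ X.card →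
      ∃ e : Fin h → Fin n, Function.Injective e ∧ (∀ a, e a ∈ X) ∧
        ∃ Bad : Finset (Fin n → Bool), (Bad.card : ℝ) ≤ θ * 2 ^ n ∧ ∀ y, y ∉ Bad →
          (∀ v : Fin h → Option Bool, dim v = l → ∀ b, F (ext e (flip v b) y) = F (ext e v y)) ∧
          ∀ s : Fin h → Option Bool, dim s = d → ¬ U (ext e s y) := by
  obtain ⟨θ', hθ', hθ'0⟩ : ∃ θ' : ℝ, θ' = θ / (2 * 2 ^ h) ∧ 0 < θ' := ⟨_, rfl, by positivity⟩
  obtain ⟨δ₂, hδ₂, hδ₂0⟩ : ∃ δ₂ : ℝ,
      δ₂ = θ' * η ^ (l + 1) / (4 * ((l : ℝ) ^ l * (h : ℝ) ^ (l + 1) + 1)) ∧ 0 < δ₂ :=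
    ⟨_, rfl, by positivity⟩
  obtain ⟨δ₃, hδ₃, hδ₃0⟩ : ∃ δ₃ : ℝ,
      δ₃ = θ' * η ^ d / (4 * ((d : ℝ) ^ d * (h : ℝ) ^ d + 1)) ∧ 0 < δ₃ :=
    ⟨_, rfl, by positivity⟩
  obtain ⟨n₀, hn₀⟩ := exists_nat_gt (4 * (h : ℝ) ^ 2 / η)
  refine ⟨min δ₂ δ₃, lt_min hδ₂0 hδ₃0, n₀ + 1, fun n hn T F U X hsens hU hX => ?_⟩
  have hn0 : (0 : ℝ) < n := by exact_mod_cast (by omega : 0 < n)
  have hn1 : 4 * (h : ℝ) ^ 2 / η < n := hn₀.trans_le (by exact_mod_cast (by omega : n₀ ≤ n))
  rw [div_lt_iff₀ hη] at hn1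
  have hX0 : (0 : ℝ) < X.card := lt_of_lt_of_le (by positivity) hX
  have hXne : X.Nonempty := card_pos.mp (by exact_mod_cast hX0)
  have h2n : (0 : ℝ) < 2 ^ n := by positivity
  have s₂ : ∑ t : Fin (l + 1) → Fin n,
      (fc (fun u => F (flip u (t 0)) ≠ F u) (fun a => t a.succ) : ℝ) / (θ' * 2 ^ n) ≤
      ((l : ℝ) ^ l * δ₂ / (θ' * η ^ (l + 1))) * (X.card : ℝ) ^ (l + 1) := by
    rw [← sum_div, sum_cons (α := Fin n) (l := l)
      (fun j t => (fc (fun u => F (flip u j) ≠ F u) t : ℝ))]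
    have h2 : ∑ j, ∑ t : Fin l → Fin n, (fc (fun u => F (flip u j) ≠ F u) t : ℝ) ≤
        (l : ℝ) ^ l * (sens F l : ℝ) := by
      exact_mod_cast sum_fc_sens F l
    refine cost_le hθ'0 hη h2n (by positivity) hδ₂0.le hn0.le (h2.trans ?_) hX rfl
    refine mul_le_mul_of_nonneg_left (hsens.trans ?_) (by positivity)
    exact mul_le_mul_of_nonneg_right (min_le_left _ _) (by positivity)
  have s₃ : ∑ t : Fin d → Fin n, (fc U t : ℝ) / (θ' * 2 ^ n) ≤
      ((d : ℝ) ^ d * δ₃ / (θ' * η ^ d)) * (X.card : ℝ) ^ d := by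
    rw [← sum_div]
    have h2 : ∑ t : Fin d → Fin n, (fc U t : ℝ) ≤
        (d : ℝ) ^ d * ((univ.filter fun u : Fin n → Option Bool => dim u = d ∧ U u).card : ℝ) := by
      exact_mod_cast sum_fc U d
    refine cost_le hθ'0 hη h2n (by positivity) hδ₃0.le hn0.le (h2.trans ?_) hX rfl
    refine mul_le_mul_of_nonneg_left (hU.trans ?_) (by positivity)
    exact mul_le_mul_of_nonneg_right (min_le_right _ _) (by positivity)
  obtain ⟨e, hinj, heX, he₂, he₃⟩ := exists_map4 (h := h) X hXne _ _ _ _ (by positivity)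
    (by positivity) s₂ s₃ (by
      have e1 : 1 / (X.card : ℝ) * (h : ℝ) ^ 2 < 1 / 4 := by
        rw [div_mul_eq_mul_div, one_mul, div_lt_iff₀ hX0]
        linarith
      have e2 := kappa_lt (H := (h : ℝ) ^ (l + 1)) hθ'0 hη (by positivity) (by positivity) hδ₂
      have e3 := kappa_lt (H := (h : ℝ) ^ d) hθ'0 hη (by positivity) (by positivity) hδ₃
      linarith) (fun t => by positivity) (fun t => by positivity)
  rw [← sum_div] at he₂ he₃
  have hb₂ : ((bad₂ U e d).card : ℝ) ≤ 2 ^ h * θ' * 2 ^ n := by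
    refine bad_le hθ'0 ?_ he₃
    exact_mod_cast card_bad₂ U hinj d
  have hb₁ : ((bad F e l).card : ℝ) ≤ 2 ^ h * θ' * 2 ^ n := by
    refine bad_le hθ'0 ?_ he₂
    have h1 : ((bad F e l).card : ℝ) ≤ 2 ^ h * ∑ b : Fin h,
        ((univ.filter fun u : Fin n → Option Bool => dim u = l ∧
          (∀ i, (¬ ∃ j, e j = i) → u i ≠ none) ∧ F (flip u (e b)) ≠ F u).card : ℝ) := by
      exact_mod_cast card_bad F hinj l
    refine h1.trans (mul_le_mul_of_nonneg_left ?_ (by positivity))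
    exact sum_sens_le F hinj l
  have hθθ : 2 ^ h * θ' = θ / 2 := by
    rw [hθ']
    field_simp
  rw [hθθ] at hb₁ hb₂
  refine ⟨e, hinj, heX, bad F e l ∪ bad₂ U e d, ?_, fun y hy => ?_⟩
  · have h1 : ((bad F e l ∪ bad₂ U e d).card : ℝ) ≤ (bad F e l).card + (bad₂ U e d).card := by
      exact_mod_cast card_union_le _ _
    linarith
  · rw [mem_union, not_or] at hy
    refine ⟨fun v hv b => ?_, fun s hs hUs => ?_⟩
    · by_contra hne
      apply hy.1
      simp only [bad, mem_filter, mem_univ, true_and]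
      exact ⟨v, hv, b, by rw [flip_ext hinj]; exact hne⟩
    · apply hy.2
      simp only [bad₂, mem_filter, mem_univ, true_and]
      exact ⟨s, hs, hUs⟩

end sel

end Pool.Agent.Lib.MP_53850c_co.PD
end

section
/-!
# Almost all `d`-faces are met: edges
-/
set_option autoImplicit false

namespace Pool.Agent.Lib.MP_53850c_co.PD

open Finset Pool.Agent.Lib.MP_53850c_co.BW Pool.Agent.Lib.MP_53850c_co.LF

open Classical in
theorem robust_edges_fin (S A T : Type) [Finite S] [AddCommMonoid A] [Finite A] [Finite T]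
    (k D d : ℕ) (hd : 1 ≤ d) (ε : ℝ) (hε : 0 < ε) :
    ∃ δ : ℝ, 0 < δ ∧ ∃ n₀ : ℕ, ∀ n, n₀ ≤ n → ∀ (Φ : Fm n S)
      (Q : (Fin n → Option Bool) → A) (F : (Fin n → Option Bool) → T) (Ψ : S → A → T → Prop),
      Φ.size ≤ k * n → Loc D Q → (sens F 1 : ℝ) ≤ δ * n * (n * 2 ^ (n - 1)) →
      ((univ.filter fun s : Fin n → Option Bool => dim s = d ∧
        ¬ ∃ u, dim u = 1 ∧ Sub u s ∧ Ψ (Φ.eval u) (Q u) (F u)).card : ℝ) ≤ δ * n ^ d * 2 ^ n →
      (1 / (B d : ℝ) - ε) * ((n : ℝ) * 2 ^ (n - 1)) ≤ ((univ.filter fun u : Fin n → Option Bool =>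
        dim u = 1 ∧ Ψ (Φ.eval u) (Q u) (F u)).card : ℝ) := by
  set η : ℝ := ε / 8 with hη
  have hη0 : 0 < η := by positivity
  obtain ⟨k', hk'⟩ := exists_nat_gt ((k : ℝ) / η)
  obtain ⟨N, hN⟩ := boundE specHom A D (S × Option T) (k' + 1 + 1) d (ε / 4) hd (by positivity)
  set h := N + 1 with hh
  have hh0 : (0 : ℝ) < h := by rw [hh]; positivity
  obtain ⟨δ, hδ, n₀, hn₀⟩ := exists_sel 1 d h (θ := ε / 4) hη0 (by positivity)
  refine ⟨δ, hδ, n₀ + 1, fun n hn Φ Q F Ψ hsize hQ hsens hcov => ?_⟩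
  have hn0 : (0 : ℝ) < n := by exact_mod_cast (by omega : 0 < n)
  set P : ℝ := 2 ^ (n - 1) with hP
  have hP0 : 0 < P := by positivity
  have h2n : (2 : ℝ) ^ n = 2 * P := by
    rw [hP, ← pow_succ']
    congr 1
    omega
  have hB1 : 1 / (B d : ℝ) ≤ 1 := by
    rcases Nat.eq_zero_or_pos (B d) with h0 | h0
    · rw [h0]; norm_num
    · rw [div_le_one (by exact_mod_cast h0)]
      exact_mod_cast h0
  rcases le_or_gt (1 / (B d : ℝ) - ε) 0 with hneg | hpos
  · refine le_trans ?_ (Nat.cast_nonneg _)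
    have : (0 : ℝ) ≤ (n : ℝ) * P := by positivity
    nlinarith
  set Eq : Fin n → ℕ := fun q => (univ.filter fun u : Fin n → Option Bool =>
    dim u = 1 ∧ u q = none ∧ Ψ (Φ.eval u) (Q u) (F u)).card with hEq
  set Y := univ.filter fun j : Fin n => k' < Φ.occ j with hY
  have hYc : (Y.card : ℝ) ≤ η * n := by
    have h1 : (k' + 1) * Y.card ≤ k * n := card_often Φ k hsize k'
    have h4 : ((k' : ℝ) + 1) * Y.card ≤ k * n := by exact_mod_cast h1
    rw [div_lt_iff₀ hη0] at hk'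
    have h6 : ((k' : ℝ) + 1) * Y.card ≤ ((k' : ℝ) + 1) * (η * n) := by
      refine h4.trans ?_
      nlinarith
    exact le_of_mul_le_mul_left h6 (by positivity)
  -- directions of small density which are read seldom
  set X := univ.filter fun j : Fin n => Φ.occ j ≤ k' ∧ (Eq j : ℝ) < (1 / (B d : ℝ) - ε / 2) * P with hX
  have hXc : (X.card : ℝ) < η * n := by
    by_contra hcon
    push Not at hcon
    obtain ⟨e, he, heX, Bad, hBad, hgd⟩ := hn₀ n (by omega) T F
      (fun s => ¬ ∃ u, dim u = 1 ∧ Sub u s ∧ Ψ (Φ.eval u) (Q u) (F u)) X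
      (by
        refine hsens.trans ?_
        rw [h2n]
        have : δ * ((n : ℝ) ^ (1 + 1) * (2 * P)) = δ * n * (n * P) + δ * n * (n * P) := by ring
        rw [this]
        have : 0 ≤ δ * n * (n * P) := by positivity
        linarith)
      (by
        have e0 : δ * ((n : ℝ) ^ d * 2 ^ n) = δ * n ^ d * 2 ^ n := by ring
        rw [e0]
        refine le_trans (le_of_eq ?_) hcov
        congr 2
        ext u
        simp only [mem_filter]) hcon
    have hocc : ∀ j, Φ.occ (e j) ≤ k' := fun j => (mem_filter.mp (heX j)).2.1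
    have hlow : ∀ j, (Eq (e j) : ℝ) < (1 / (B d : ℝ) - ε / 2) * P :=
      fun j => (mem_filter.mp (heX j)).2.2
    have hgood : ∀ y, y ∉ Bad → (1 / (B d : ℝ) - ε / 4) * ((h : ℝ) * 2 ^ (h - 1)) ≤
        ((univ.filter fun v : Fin h → Option Bool =>
          dim v = 1 ∧ Ψ (Φ.eval (ext e v y)) (Q (ext e v y)) (F (ext e v y))).card : ℝ) := by
      intro y hy
      obtain ⟨hg, hcy⟩ := hgd y hy
      obtain ⟨Φ₁, h2, h3⟩ := exists_restr he (by omega) y Φ k' hocc
      let vs : Fin h → (Fin h → Option Bool) := fun a j => if j = a then none else some false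
      have hF : ∀ (v : Fin h → Option Bool) (a : Fin h), dim v = 1 → v a = none →
          F (ext e v y) = F (ext e (vs a) y) := by
        intro v a hv ha
        refine const_of_flip' (g := fun v => F (ext e v y)) hg hv fun j => ?_
        rw [eq_none_iff hv ha j]
        by_cases hj : j = a <;> simp [vs, hj]
      obtain ⟨Φ₂, h4, h5⟩ := exists_star (fun a => F (ext e (vs a) y)) (by omega : 0 < h)
      obtain ⟨Φ₃, h6, h7⟩ := exists_pair Φ₁ Φ₂
      have hiff : ∀ v : Fin h → Option Bool, dim v = 1 →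
          ((∃ t, (Φ₃.eval v).2 = some t ∧ Ψ (Φ₃.eval v).1 (Q (ext e v y)) t) ↔
            Ψ (Φ.eval (ext e v y)) (Q (ext e v y)) (F (ext e v y))) := by
        intro v hv
        obtain ⟨a, ha⟩ := exists_dir hv
        rw [h7, h3, h5 v a hv ha, ← hF v a hv ha]
        constructor
        · rintro ⟨t, ht, h8⟩
          rw [Option.some_inj] at ht
          subst ht
          exact h8
        · intro h8
          exact ⟨_, rfl, h8⟩
      have h8 := hN h (by omega) Φ₃ (fun v => Q (ext e v y))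
        (fun s a => ∃ t, s.2 = some t ∧ Ψ s.1 a t)
        (fun j => by rw [h6]; exact Nat.add_le_add (h2 j) (h4 j)) (hQ.restr he y) (by
          intro s hs
          obtain ⟨u, hu1, hu2, hu3⟩ := not_not.mp (hcy s hs)
          obtain ⟨hu4, hu5⟩ := eq_ext_of_sub he hu2
          have h9 : dim (u ∘ e) = 1 := by
            rw [← dim_ext he (u ∘ e) y, ← hu4]
            exact hu1
          refine ⟨u ∘ e, h9, hu5, (hiff _ h9).mpr ?_⟩
          rw [← hu4]
          exact hu3)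
      refine h8.trans (le_of_eq ?_)
      congr 2
      ext v
      simp only [mem_filter, mem_univ, true_and]
      constructor
      · rintro ⟨h9, h10⟩
        exact ⟨h9, (hiff v h9).mp h10⟩
      · rintro ⟨h9, h10⟩
        exact ⟨h9, (hiff v h9).mpr h10⟩
    have key := sum_good (fun u => Ψ (Φ.eval u) (Q u) (F u)) he 1 Bad hgood
    rw [card_edges_range he (fun u => Ψ (Φ.eval u) (Q u) (F u))] at key
    have hlt : ∑ j : Fin h, (Eq (e j) : ℝ) < h * ((1 / (B d : ℝ) - ε / 2) * P) := by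
      have h1 : ∑ j : Fin h, (Eq (e j) : ℝ) < ∑ _j : Fin h, ((1 / (B d : ℝ) - ε / 2) * P) :=
        sum_lt_sum_of_nonempty ⟨⟨0, by omega⟩, mem_univ _⟩ fun j _ => hlow j
      rwa [sum_const, card_univ, Fintype.card_fin, nsmul_eq_mul] at h1
    push_cast at key
    have hkey2 : (2 : ℝ) ^ h * ∑ j : Fin h, (Eq (e j) : ℝ) <
        2 ^ h * (h * ((1 / (B d : ℝ) - ε / 2) * P)) := mul_lt_mul_of_pos_left hlt (by positivity)
    have h2h : (2 : ℝ) ^ h = 2 * 2 ^ (h - 1) := by
      rw [← pow_succ']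
      congr 1
    set c : ℝ := 1 / (B d : ℝ) - ε / 4 with hc
    have hc0 : 0 < c := by rw [hc]; linarith
    have hc1 : c ≤ 1 := by rw [hc]; linarith
    have h9 : (2 ^ n - ε / 4 * 2 ^ n) * (c * ((h : ℝ) * 2 ^ (h - 1))) ≤
        (2 ^ n - (Bad.card : ℝ)) * (c * ((h : ℝ) * 2 ^ (h - 1))) :=
      mul_le_mul_of_nonneg_right (by linarith) (by positivity)
    have h10 := (h9.trans key).trans_lt hkey2
    rw [h2n, h2h] at h10
    have h11 : (2 * P - ε / 4 * (2 * P)) * (c * ((h : ℝ) * 2 ^ (h - 1))) =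
        (2 * 2 ^ (h - 1) * (h * P)) * ((1 - ε / 4) * c) := by ring
    have h12 : 2 * (2 : ℝ) ^ (h - 1) * (h * ((1 / (B d : ℝ) - ε / 2) * P)) =
        (2 * 2 ^ (h - 1) * (h * P)) * (c - ε / 4) := by rw [hc]; ring
    rw [h11, h12] at h10
    have h13 : (1 - ε / 4) * c < c - ε / 4 := lt_of_mul_lt_mul_left h10 (by positivity)
    have h14 : ε / 4 * c ≤ ε / 4 * 1 := mul_le_mul_of_nonneg_left hc1 (by positivity)
    linarith
  -- conclusion
  have hsum : ((univ.filter fun u : Fin n → Option Bool =>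
      dim u = 1 ∧ Ψ (Φ.eval u) (Q u) (F u)).card : ℝ) = ∑ q : Fin n, (Eq q : ℝ) := by
    rw [card_edges_eq_sum (fun u => Ψ (Φ.eval u) (Q u) (F u))]
    push_cast
    rfl
  rw [hsum]
  set G := univ.filter fun j : Fin n => (1 / (B d : ℝ) - ε / 2) * P ≤ (Eq j : ℝ) with hG
  have hGc : (1 - 2 * η) * n ≤ G.card := by
    have h1 : (univ : Finset (Fin n)) ⊆ G ∪ (X ∪ Y) := by
      intro j _
      simp only [hX, hY, hG, mem_union, mem_filter, mem_univ, true_and]
      by_cases h1 : (1 / (B d : ℝ) - ε / 2) * P ≤ (Eq j : ℝ)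
      · exact Or.inl h1
      · by_cases h2 : Φ.occ j ≤ k'
        · exact Or.inr (Or.inl ⟨h2, not_le.mp h1⟩)
        · exact Or.inr (Or.inr (not_le.mp h2))
    have h2 := card_le_card h1
    rw [card_univ, Fintype.card_fin] at h2
    have h3 := (h2.trans (card_union_le _ _)).trans
      (Nat.add_le_add_left (card_union_le X Y) G.card)
    have h4 : (n : ℝ) ≤ G.card + (X.card + Y.card) := by exact_mod_cast h3
    linarith
  have hge : (G.card : ℝ) * ((1 / (B d : ℝ) - ε / 2) * P) ≤ ∑ q : Fin n, (Eq q : ℝ) := by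
    have h1 : ∑ q ∈ G, ((1 / (B d : ℝ) - ε / 2) * P) ≤ ∑ q ∈ G, (Eq q : ℝ) :=
      sum_le_sum fun q hq => (mem_filter.mp hq).2
    rw [sum_const, nsmul_eq_mul] at h1
    exact h1.trans (sum_le_sum_of_subset_of_nonneg (subset_univ _) fun _ _ _ => Nat.cast_nonneg _)
  refine le_trans ?_ hge
  have hc0 : 0 ≤ 1 / (B d : ℝ) - ε / 2 := by linarith
  have h1 : (1 / (B d : ℝ) - ε) * n ≤ (1 - 2 * η) * n * (1 / (B d : ℝ) - ε / 2) := by
    have h2 : (1 / (B d : ℝ) - ε) ≤ (1 - 2 * η) * (1 / (B d : ℝ) - ε / 2) := by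
      rw [hη]
      have h3 : 2 * (ε / 8) * (1 / (B d : ℝ) - ε / 2) ≤ 2 * (ε / 8) * 1 :=
        mul_le_mul_of_nonneg_left (by linarith) (by positivity)
      linarith
    have := mul_le_mul_of_nonneg_right h2 hn0.le
    linarith
  have h2 : (1 - 2 * η) * n * (1 / (B d : ℝ) - ε / 2) ≤ G.card * (1 / (B d : ℝ) - ε / 2) :=
    mul_le_mul_of_nonneg_right hGc hc0
  have h3 := mul_le_mul_of_nonneg_right (h1.trans h2) hP0.le
  calc (1 / (B d : ℝ) - ε) * ((n : ℝ) * P) = (1 / (B d : ℝ) - ε) * n * P := by ring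
    _ ≤ G.card * (1 / (B d : ℝ) - ε / 2) * P := h3
    _ = _ := by ring

open Classical in
/-- **Edges, robust form.** A formula with at most `k * n` leaves over a finite alphabet, a sum of
`D`-local functions with values in a finite commutative monoid, and an arbitrary function of the
edges whose average sensitivity is at most `δ * n`; at most `δ * n^d * 2^n` of the `d`-faces contain
no accepted edge. -/
theorem robust_edges (S A : Type) [Finite S] [AddCommMonoid A] [Finite A]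
    (k D d : ℕ) (hd : 1 ≤ d) (ε : ℝ) (hε : 0 < ε) :
    ∃ δ : ℝ, 0 < δ ∧ ∃ n₀ : ℕ, ∀ n, n₀ ≤ n → ∀ (T : Type) (Φ : Fm n S)
      (Q : (Fin n → Option Bool) → A) (F : (Fin n → Option Bool) → T) (Ψ : S → A → T → Prop),
      Φ.size ≤ k * n → Loc D Q → (sens F 1 : ℝ) ≤ δ * n * (n * 2 ^ (n - 1)) →
      ((univ.filter fun s : Fin n → Option Bool => dim s = d ∧
        ¬ ∃ u, dim u = 1 ∧ Sub u s ∧ Ψ (Φ.eval u) (Q u) (F u)).card : ℝ) ≤ δ * n ^ d * 2 ^ n →
      (1 / (B d : ℝ) - ε) * ((n : ℝ) * 2 ^ (n - 1)) ≤ ((univ.filter fun u : Fin n → Option Bool =>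
        dim u = 1 ∧ Ψ (Φ.eval u) (Q u) (F u)).card : ℝ) := by
  obtain ⟨δ, hδ, n₀, hn₀⟩ := robust_edges_fin S A (S → A → Prop) k D d hd ε hε
  refine ⟨δ, hδ, n₀, fun n hn T Φ Q F Ψ hsize hQ hsens hcov => ?_⟩
  refine hn₀ n hn Φ Q (fun u s a => Ψ s a (F u)) (fun s a t => t s a) hsize hQ ?_ ?_
  swap
  · exact hcov
  refine le_trans ?_ hsens
  have : sens (fun u s a => Ψ s a (F u)) 1 ≤ sens F 1 := by
    unfold sens
    refine sum_le_sum fun j _ => card_le_card fun u hu => ?_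
    simp only [mem_filter, mem_univ, true_and] at hu ⊢
    refine ⟨hu.1, fun h1 => hu.2 ?_⟩
    rw [h1]
  exact_mod_cast this

end Pool.Agent.Lib.MP_53850c_co.PD
end

section
/-!
# Almost all `d`-faces are met: vertices
-/
set_option autoImplicit false

namespace Pool.Agent.Lib.MP_53850c_co.PD

open Finset Pool.Agent.Lib.MP_53850c_co.BW Pool.Agent.Lib.MP_53850c_co.LF

open Classical in
/-- **Vertices, robust form.** A formula with at most `k * n` leaves over a finite alphabet, a sum of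
`D`-local functions with values in a finite commutative monoid, and an arbitrary function whose
average sensitivity is at most `δ * n`; at most `δ * n^d * 2^n` of the `d`-faces contain no accepted
vertex. -/
theorem robust_vertices (S A : Type) [Finite S] [AddCommMonoid A] [Finite A]
    (k D d : ℕ) (hd : 1 ≤ d) (ε : ℝ) (hε : 0 < ε) :
    ∃ δ : ℝ, 0 < δ ∧ ∃ n₀ : ℕ, ∀ n, n₀ ≤ n → ∀ (T : Type) (Φ : Fm n S)
      (Q : (Fin n → Option Bool) → A) (F : (Fin n → Option Bool) → T) (Ψ : S → A → T → Prop),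
      Φ.size ≤ k * n → Loc D Q → (sens F 0 : ℝ) ≤ δ * n * 2 ^ n →
      ((univ.filter fun s : Fin n → Option Bool => dim s = d ∧
        ¬ ∃ u, dim u = 0 ∧ Sub u s ∧ Ψ (Φ.eval u) (Q u) (F u)).card : ℝ) ≤ δ * n ^ d * 2 ^ n →
      (1 / ((d : ℝ) + 1) - ε) * 2 ^ n ≤ ((univ.filter fun u : Fin n → Option Bool =>
        dim u = 0 ∧ Ψ (Φ.eval u) (Q u) (F u)).card : ℝ) := by
  obtain ⟨N, hN⟩ := boundV specHom A D S (4 * k + 1) d (ε / 2) hd (by positivity)
  set h := N + 1 with hh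
  have hh0 : (0 : ℝ) < h := by rw [hh]; positivity
  obtain ⟨δ, hδ, n₀, hn₀⟩ := exists_sel 0 d h (η := 1 / 2) (θ := ε / 2) (by norm_num)
    (by positivity)
  refine ⟨δ, hδ, n₀ + 1, fun n hn T Φ Q F Ψ hsize hQ hsens hcov => ?_⟩
  have hn0 : (0 : ℝ) < n := by exact_mod_cast (by omega : 0 < n)
  -- the letters which may be used
  set Y := univ.filter fun j : Fin n => 4 * k < Φ.occ j with hY
  set X := univ.filter fun j : Fin n => Φ.occ j ≤ 4 * k with hX
  have hYc : (4 : ℝ) * Y.card ≤ n := by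
    have h1 := card_often Φ k hsize (4 * k)
    rcases Nat.eq_zero_or_pos k with hk | hk
    · subst hk
      have h2 : Y.card = 0 := by
        have : (4 * 0 + 1) * Y.card ≤ 0 * n := h1
        omega
      rw [h2]
      push_cast
      linarith
    · have h2 : (4 * k + 1) * Y.card ≤ k * n := h1
      have h3 : k * (4 * Y.card) ≤ k * n := by nlinarith
      exact_mod_cast Nat.le_of_mul_le_mul_left h3 hk
  have hXc : 1 / 2 * (n : ℝ) ≤ X.card := by
    have h1 : (univ : Finset (Fin n)) ⊆ X ∪ Y := by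
      intro j _
      simp only [hX, hY, mem_union, mem_filter, mem_univ, true_and]
      exact le_or_gt _ _
    have h2 := card_le_card h1
    rw [card_univ, Fintype.card_fin] at h2
    have h3 := h2.trans (card_union_le _ _)
    have h4 : (n : ℝ) ≤ X.card + Y.card := by exact_mod_cast h3
    linarith
  obtain ⟨e, he, heX, Bad, hBad, hgd⟩ := hn₀ n (by omega) T F
    (fun s => ¬ ∃ u, dim u = 0 ∧ Sub u s ∧ Ψ (Φ.eval u) (Q u) (F u)) X
    (by
      have e0 : δ * ((n : ℝ) ^ (0 + 1) * 2 ^ n) = δ * n * 2 ^ n := by ring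
      rw [e0]
      exact hsens)
    (by
      have e0 : δ * ((n : ℝ) ^ d * 2 ^ n) = δ * n ^ d * 2 ^ n := by ring
      rw [e0]
      refine le_trans (le_of_eq ?_) hcov
      congr 2
      ext u
      simp only [mem_filter]) hXc
  have hocc : ∀ j, Φ.occ (e j) ≤ 4 * k := fun j => (mem_filter.mp (heX j)).2
  rcases le_or_gt (1 / ((d : ℝ) + 1) - ε) 0 with hneg | hpos
  · refine le_trans ?_ (Nat.cast_nonneg _)
    have : (0 : ℝ) ≤ 2 ^ n := by positivity
    nlinarith
  -- good restrictions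
  have hgood : ∀ y, y ∉ Bad → (1 / ((d : ℝ) + 1) - ε / 2) * 2 ^ h ≤
      ((univ.filter fun v : Fin h → Option Bool =>
        dim v = 0 ∧ Ψ (Φ.eval (ext e v y)) (Q (ext e v y)) (F (ext e v y))).card : ℝ) := by
    intro y hy
    obtain ⟨hg, hcy⟩ := hgd y hy
    obtain ⟨Φ', h2, h3⟩ := exists_restr he (by omega) y Φ (4 * k) hocc
    set v₀ : Fin h → Option Bool := fun _ => some false with hv₀
    have hd0 : ∀ v : Fin h → Option Bool, dim v = 0 ↔ ∀ j, v j ≠ none := by
      intro v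
      unfold dim
      rw [card_eq_zero, filter_eq_empty_iff]
      simp
    have hF : ∀ v : Fin h → Option Bool, dim v = 0 → F (ext e v y) = F (ext e v₀ y) := by
      intro v hv
      refine const_of_flip' (g := fun v => F (ext e v y)) hg hv fun j => ?_
      have h4 := (hd0 v).mp hv j
      simp [hv₀, h4]
    have h5 := hN h (by omega) Φ' (fun v => Q (ext e v y))
      (fun s a => Ψ s a (F (ext e v₀ y))) h2 (hQ.restr he y) (by
        intro s hs
        obtain ⟨u, hu1, hu2, hu3⟩ := not_not.mp (hcy s hs)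
        obtain ⟨hu4, hu5⟩ := eq_ext_of_sub he hu2
        have h6 : dim (u ∘ e) = 0 := by
          rw [← dim_ext he (u ∘ e) y, ← hu4]
          exact hu1
        refine ⟨u ∘ e, h6, hu5, ?_⟩
        rw [h3, ← hF _ h6, ← hu4]
        exact hu3)
    refine h5.trans (le_of_eq ?_)
    congr 2
    ext v
    simp only [mem_filter, mem_univ, true_and]
    constructor
    · rintro ⟨h6, h7⟩
      rw [h3, ← hF v h6] at h7
      exact ⟨h6, h7⟩
    · rintro ⟨h6, h7⟩
      rw [h3, ← hF v h6]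
      exact ⟨h6, h7⟩
  have key := sum_good (fun u => Ψ (Φ.eval u) (Q u) (F u)) he 0 Bad hgood
  set c : ℝ := 1 / ((d : ℝ) + 1) - ε / 2 with hc
  have hc0 : 0 ≤ c := by rw [hc]; linarith
  have hc1 : c ≤ 1 := by
    have : 1 / ((d : ℝ) + 1) ≤ 1 := by
      rw [div_le_one (by positivity)]
      have : (0 : ℝ) ≤ d := Nat.cast_nonneg d
      linarith
    rw [hc]; linarith
  have h2h : (0 : ℝ) < 2 ^ h := by positivity
  have hE : (2 ^ n - (Bad.card : ℝ)) * c ≤ ((univ.filter fun u : Fin n → Option Bool =>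
      dim u = 0 ∧ Ψ (Φ.eval u) (Q u) (F u)).card : ℝ) := by
    have h1 : ((univ.filter fun u : Fin n → Option Bool => dim u = 0 ∧
        (∀ i, (¬ ∃ j, e j = i) → u i ≠ none) ∧ Ψ (Φ.eval u) (Q u) (F u)).card : ℝ) ≤
        ((univ.filter fun u : Fin n → Option Bool =>
          dim u = 0 ∧ Ψ (Φ.eval u) (Q u) (F u)).card : ℝ) := by
      have : (univ.filter fun u : Fin n → Option Bool => dim u = 0 ∧
        (∀ i, (¬ ∃ j, e j = i) → u i ≠ none) ∧ Ψ (Φ.eval u) (Q u) (F u)) ⊆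
        (univ.filter fun u : Fin n → Option Bool =>
          dim u = 0 ∧ Ψ (Φ.eval u) (Q u) (F u)) := by
        intro u hu
        simp only [mem_filter, mem_univ, true_and] at hu ⊢
        exact ⟨hu.1, hu.2.2⟩
      exact_mod_cast card_le_card this
    refine le_trans ?_ h1
    refine le_of_mul_le_mul_left (le_trans (le_of_eq ?_) key) h2h
    ring
  refine le_trans ?_ hE
  have h2n : (0 : ℝ) < 2 ^ n := by positivity
  have h6 : (2 ^ n - (ε / 2) * 2 ^ n) * c ≤ (2 ^ n - (Bad.card : ℝ)) * c :=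
    mul_le_mul_of_nonneg_right (by linarith) hc0
  refine le_trans ?_ h6
  have h7 : (1 / ((d : ℝ) + 1) - ε) = c - ε / 2 := by rw [hc]; ring
  rw [h7]
  have h8 : ε / 2 * c ≤ ε / 2 * 1 := mul_le_mul_of_nonneg_left hc1 (by positivity)
  nlinarith

end Pool.Agent.Lib.MP_53850c_co.PD
end
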